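import Mathlib
import Pool.Agent.Lib_helper72.LP.Rankin2

set_option autoImplicit false

/-!
A covering of Rankin's length by classes modulo primes outside a small exceptional set.
-/

namespace Pool.Agent.Lib_helper72.HM

open Finset Filter BlockSieve Pool.Agent.Lib_helper72.AP Pool.Agent.Lib_helper72.AS
  Pool.Agent.Lib_helper72.LP

noncomputable section

lemma one_sub_inv_mem {l : ℕ} (hl : l.Prime) : 0 < 1 - (1 : ℝ) / l ∧ 1 - (1 : ℝ) / l ≤ 1 := by
  have h1 : (1 : ℝ) < l := by exact_mod_cast hl.one_lt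
  constructor
  · rw [sub_pos, div_lt_one (by linarith)]
    exact h1
  · have : 0 ≤ (1 : ℝ) / l := by positivity
    linarith

lemma prod_subset_ge {F G : Finset ℕ} (hF : ∀ l ∈ F, l.Prime) (hGF : G ⊆ F) :
    ∏ l ∈ F, (1 - (1 : ℝ) / l) ≤ ∏ l ∈ G, (1 - (1 : ℝ) / l) := by
  classical
  rw [← Finset.prod_sdiff hGF]
  have h1 : ∏ l ∈ F \ G, (1 - (1 : ℝ) / l) ≤ 1 :=
    Finset.prod_le_one (fun l hl => (one_sub_inv_mem (hF l (Finset.mem_sdiff.1 hl).1)).1.le)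
      (fun l hl => (one_sub_inv_mem (hF l (Finset.mem_sdiff.1 hl).1)).2)
  have h2 : 0 ≤ ∏ l ∈ G, (1 - (1 : ℝ) / l) :=
    Finset.prod_nonneg fun l hl => (one_sub_inv_mem (hF l (hGF hl))).1.le
  calc _ ≤ 1 * ∏ l ∈ G, (1 - (1 : ℝ) / l) := by gcongr
    _ = _ := one_mul _

/-- The effect of leaving out the primes of `F`. -/
lemma hcard_avoid {T z y : ℕ} (hz : 0 < z) {F : Finset ℕ} (hF : ∀ l ∈ F, l.Prime) {δ : ℝ}
    (hδ0 : 0 < δ) (hδ : δ ≤ ∏ l ∈ F, (1 - (1 : ℝ) / l)) :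
    (((Icc 1 T).filter (fun k => ∀ l ∈ (pr y \ pr z) \ F, ¬ l ∣ k)).card : ℝ) *
      ∏ l ∈ pr z \ F, (1 - (1 : ℝ) / l) ≤
    ((((Icc 1 T).filter (fun k => ∀ l ∈ pr y \ pr z, ¬ l ∣ k)).card : ℝ) *
      ∏ l ∈ pr z, (1 - (1 : ℝ) / l) + F.card * (T / z)) / δ := by
  classical
  have hzr : (0 : ℝ) < z := by exact_mod_cast hz
  -- the count
  have h1 : (Icc 1 T).filter (fun k => ∀ l ∈ (pr y \ pr z) \ F, ¬ l ∣ k) ⊆
      (Icc 1 T).filter (fun k => ∀ l ∈ pr y \ pr z, ¬ l ∣ k) ∪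
        (F.filter (fun l => z < l)).biUnion (fun l => (Icc 1 T).filter (fun k => l ∣ k)) := by
    intro k hk
    rw [mem_filter] at hk
    rw [mem_union, mem_filter, mem_biUnion]
    by_cases h : ∀ l ∈ pr y \ pr z, ¬ l ∣ k
    · exact Or.inl ⟨hk.1, h⟩
    · right
      push Not at h
      obtain ⟨l, hl, hlk⟩ := h
      have hlF : l ∈ F := by
        by_contra hlF
        exact hk.2 l (Finset.mem_sdiff.2 ⟨hl, hlF⟩) hlk
      refine ⟨l, mem_filter.2 ⟨hlF, ?_⟩, mem_filter.2 ⟨hk.1, hlk⟩⟩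
      rw [Finset.mem_sdiff, mem_pr, mem_pr] at hl
      by_contra hle
      exact hl.2 ⟨hl.1.1, by omega⟩
  have h2 : (((Icc 1 T).filter (fun k => ∀ l ∈ (pr y \ pr z) \ F, ¬ l ∣ k)).card : ℝ) ≤
      (((Icc 1 T).filter (fun k => ∀ l ∈ pr y \ pr z, ¬ l ∣ k)).card : ℝ) +
        F.card * (T / z) := by
    have h3 := (Finset.card_le_card h1).trans (Finset.card_union_le _ _)
    have h4 : (((F.filter (fun l => z < l)).biUnion
        (fun l => (Icc 1 T).filter (fun k => l ∣ k))).card : ℝ) ≤ F.card * (T / z) := by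
      calc (((F.filter (fun l => z < l)).biUnion
          (fun l => (Icc 1 T).filter (fun k => l ∣ k))).card : ℝ) ≤
            ∑ l ∈ F.filter (fun l => z < l), (((Icc 1 T).filter (fun k => l ∣ k)).card : ℝ) := by
            exact_mod_cast Finset.card_biUnion_le
        _ ≤ ∑ l ∈ F.filter (fun l => z < l), (T : ℝ) / z := by
            apply Finset.sum_le_sum
            intro l hl
            rw [mem_filter] at hl
            have e1 : (Icc 1 T).filter (fun k => l ∣ k) = (Ioc 0 T).filter (fun k => l ∣ k) := by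
              congr 1
            rw [e1, Nat.Ioc_filter_dvd_card_eq_div]
            refine Nat.cast_div_le.trans ?_
            have : (z : ℝ) < l := by exact_mod_cast hl.2
            gcongr
        _ = ((F.filter (fun l => z < l)).card : ℝ) * (T / z) := by
            rw [Finset.sum_const, nsmul_eq_mul]
        _ ≤ F.card * (T / z) := by
            have : (F.filter (fun l => z < l)).card ≤ F.card := Finset.card_filter_le _ _
            gcongr
    have h5 : (((Icc 1 T).filter (fun k => ∀ l ∈ (pr y \ pr z) \ F, ¬ l ∣ k)).card : ℝ) ≤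
      (((Icc 1 T).filter (fun k => ∀ l ∈ pr y \ pr z, ¬ l ∣ k)).card : ℝ) +
      (((F.filter (fun l => z < l)).biUnion
        (fun l => (Icc 1 T).filter (fun k => l ∣ k))).card : ℝ) := by exact_mod_cast h3
    linarith
  -- the product
  have hprz : ∀ l ∈ pr z, l.Prime := fun l hl => (mem_pr.1 hl).1
  have h6 : (∏ l ∈ pr z \ F, (1 - (1 : ℝ) / l)) * δ ≤ ∏ l ∈ pr z, (1 - (1 : ℝ) / l) := by
    have e1 : ∏ l ∈ pr z, (1 - (1 : ℝ) / l) =
        (∏ l ∈ pr z \ F, (1 - (1 : ℝ) / l)) * ∏ l ∈ pr z ∩ F, (1 - (1 : ℝ) / l) := by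
      rw [← Finset.prod_union (Finset.disjoint_sdiff_inter _ _), Finset.sdiff_union_inter]
    rw [e1]
    have h7 : 0 ≤ ∏ l ∈ pr z \ F, (1 - (1 : ℝ) / l) :=
      Finset.prod_nonneg fun l hl => (one_sub_inv_mem (hprz l (Finset.mem_sdiff.1 hl).1)).1.le
    apply mul_le_mul_of_nonneg_left _ h7
    exact hδ.trans (prod_subset_ge hF Finset.inter_subset_right)
  have h8 : ∏ l ∈ pr z \ F, (1 - (1 : ℝ) / l) ≤ 1 :=
    Finset.prod_le_one (fun l hl => (one_sub_inv_mem (hprz l (Finset.mem_sdiff.1 hl).1)).1.le)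
      (fun l hl => (one_sub_inv_mem (hprz l (Finset.mem_sdiff.1 hl).1)).2)
  have h9 : δ ≤ 1 := hδ.trans (Finset.prod_le_one (fun l hl => (one_sub_inv_mem (hF l hl)).1.le)
    (fun l hl => (one_sub_inv_mem (hF l hl)).2))
  have h10 : 0 ≤ ∏ l ∈ pr z \ F, (1 - (1 : ℝ) / l) :=
    Finset.prod_nonneg fun l hl => (one_sub_inv_mem (hprz l (Finset.mem_sdiff.1 hl).1)).1.le
  rw [le_div_iff₀ hδ0]
  set C' := (((Icc 1 T).filter (fun k => ∀ l ∈ (pr y \ pr z) \ F, ¬ l ∣ k)).card : ℝ)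
  set C := (((Icc 1 T).filter (fun k => ∀ l ∈ pr y \ pr z, ¬ l ∣ k)).card : ℝ) with hC
  set G' := ∏ l ∈ pr z \ F, (1 - (1 : ℝ) / l)
  set G := ∏ l ∈ pr z, (1 - (1 : ℝ) / l)
  have hC0 : 0 ≤ C := by rw [hC]; positivity
  have hB0 : 0 ≤ (F.card : ℝ) * (T / z) := by positivity
  calc C' * G' * δ ≤ (C + F.card * (T / z)) * G' * δ := by gcongr
    _ = C * (G' * δ) + F.card * (T / z) * (G' * δ) := by ring
    _ ≤ C * G + F.card * (T / z) * (1 * 1) := by gcongr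
    _ = _ := by ring

/-- From a covering to a single integer prime to the moduli. -/
lemma single_shift {T : ℕ} (Q : Finset ℕ) (hQ : ∀ l ∈ Q, l.Prime) (a : ℕ → ℕ)
    (ha : ∀ k, 1 ≤ k → k ≤ T → ∃ l ∈ Q, k ≡ a l [MOD l]) :
    ∃ α : ℕ, (∀ l ∈ Q, ¬ l ∣ α) ∧ ∀ n, 1 ≤ n → n ≤ T → ∃ l ∈ Q, n ≡ α [MOD l] := by
  classical
  obtain ⟨b, hb1, hb2⟩ := shift_cover Q hQ a ha T le_rfl
  have hcop : (Q : Set ℕ).Pairwise (Function.onFun Nat.Coprime (fun l : ℕ => l)) := by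
    intro l hl q hq hne
    exact (Nat.coprime_primes (hQ l hl) (hQ q hq)).2 hne
  obtain ⟨α, hα⟩ := Nat.chineseRemainderOfFinset (fun l => (((T : ℤ) - b l) % l).toNat)
    (fun l : ℕ => l) Q (fun l hl => (hQ l hl).ne_zero) hcop
  have hα' : ∀ l ∈ Q, (α : ℤ) ≡ (T : ℤ) - b l [ZMOD l] := by
    intro l hl
    have h1 := hα l hl
    rw [← Int.natCast_modEq_iff] at h1
    have h2 : 0 ≤ ((T : ℤ) - b l) % l :=
      Int.emod_nonneg _ (by exact_mod_cast (hQ l hl).ne_zero)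
    rw [Int.toNat_of_nonneg h2] at h1
    exact h1.trans (Int.mod_modEq _ _)
  refine ⟨α, ?_, ?_⟩
  · intro l hl h
    apply hb2 l hl
    have h1 : (α : ℤ) ≡ 0 [ZMOD l] := (Int.modEq_zero_iff_dvd).2 (by exact_mod_cast h)
    have h2 := (hα' l hl).symm.trans h1
    have h3 := h2.add (Int.ModEq.refl (n := (l : ℤ)) (b l))
    rwa [sub_add_cancel, zero_add] at h3
  · intro n hn1 hnT
    obtain ⟨l, hl, h⟩ : ∃ l ∈ Q, ((T - n : ℕ) : ℤ) ≡ b l [ZMOD l] := by
      by_cases h0 : T - n < T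
      · exact hb1 _ h0
      · omega
    refine ⟨l, hl, ?_⟩
    rw [← Int.natCast_modEq_iff]
    rw [Nat.cast_sub hnT] at h
    refine Int.ModEq.trans ?_ (hα' l hl).symm
    have h3 := (Int.ModEq.refl (n := (l : ℤ)) (T : ℤ)).sub h
    rwa [sub_sub_cancel] at h3

/-- The covering of Rankin's length without the primes of an exceptional set. -/
theorem cover_avoid (A : ℕ) {δ : ℝ} (hδ : 0 < δ) (hδ1 : δ ≤ 1) : ∃ κ : ℝ, 0 < κ ∧ κ ≤ 1 ∧
    ∃ M₀ : ℕ, ∀ M : ℕ, M₀ ≤ M →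
      Real.log M / (4 * ((A : ℝ) + 5)) ≤ yM A M ∧ 60 ≤ Real.log (Real.log M) ∧
      ∀ F : Finset ℕ, (∀ l ∈ F, l.Prime) → (F.card : ℝ) ≤ Real.log (Real.log M) ^ 2 →
        δ ≤ ∏ l ∈ F, (1 - (1 : ℝ) / l) →
        ∃ α : ℕ, (∀ l ∈ pr (8 * yM A M) \ F, ¬ l ∣ α) ∧
          ∀ n : ℕ, 1 ≤ n → (n : ℝ) ≤ κ * WM M →
            ∃ l ∈ pr (8 * yM A M) \ F, n ≡ α [MOD l] := by
  classical
  obtain ⟨ε, hε⟩ : ∃ ε : ℝ, ε = δ / (6000 * ((A : ℝ) + 5)) := ⟨_, rfl⟩
  have hA0 : (0 : ℝ) ≤ A := Nat.cast_nonneg _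
  have hε0 : 0 < ε := by
    rw [hε]
    positivity
  have hε1 : ε ≤ 1 := by
    rw [hε, div_le_one (by positivity)]
    linarith
  obtain ⟨M₁, hM₁⟩ := survivors A hε0 hε1
  obtain ⟨y₀, hy₀⟩ := eventually_atTop.1 large_card
  have hlim : Tendsto (fun M : ℕ => Real.log M / (4 * ((A : ℝ) + 5))) atTop atTop :=
    (Real.tendsto_log_atTop.comp tendsto_natCast_atTop_atTop).atTop_div_const (by positivity)
  obtain ⟨M₂, hM₂⟩ := eventually_atTop.1 (hlim.eventually_ge_atTop (y₀ : ℝ))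
  have hll : Tendsto (fun M : ℕ => Real.log (Real.log (M : ℝ))) atTop atTop :=
    Real.tendsto_log_atTop.comp tendsto_log_nat
  obtain ⟨M₃, hM₃⟩ := eventually_atTop.1 ((hll.eventually (ev_conditions A 1)).and
    (tendsto_log_nat.eventually (ev_real (6 * ((A : ℝ) + 5)) 3)))
  refine ⟨ε, hε0, hε1, max M₁ (max M₂ M₃), fun M hM => ?_⟩
  obtain ⟨h1, h2, h3, h4, h5, h6⟩ := hM₁ M ((le_max_left _ _).trans hM)
  have h7 := hM₂ M (((le_max_left _ _).trans (le_max_right _ _)).trans hM)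
  obtain ⟨h8, h9⟩ := hM₃ M (((le_max_right _ _).trans (le_max_right _ _)).trans hM)
  obtain ⟨k1, k2, k3, k4, k5⟩ := h8
  clear k2 k4 k5
  obtain ⟨y, hy⟩ : ∃ y, y = yM A M := ⟨_, rfl⟩
  obtain ⟨z, hz⟩ : ∃ z, z = zM M := ⟨_, rfl⟩
  obtain ⟨L, hL⟩ : ∃ L, L = Real.log (M : ℝ) := ⟨_, rfl⟩
  obtain ⟨w, hw⟩ : ∃ w, w = Real.log L := ⟨_, rfl⟩
  obtain ⟨v, hv⟩ : ∃ v, v = Real.log w := ⟨_, rfl⟩
  obtain ⟨q, hq⟩ : ∃ q, q = Real.log v := ⟨_, rfl⟩
  obtain ⟨A', hA'⟩ : ∃ A' : ℝ, A' = (A : ℝ) + 5 := ⟨_, rfl⟩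
  have hA'5 : 5 ≤ A' := by linarith
  rw [← hz, ← hy] at h1
  rw [← hy] at h3 h4 h5
  rw [← hy, ← hz] at h6
  rw [← hL] at h2 h3 h5 h6 h7 h9 k1 k3
  rw [← hw] at h2 h5 h6 h9 k1 k3
  rw [← hv] at k1 k3
  rw [← hq] at k1
  rw [← hA'] at h3 h7 h9
  rw [← hy, ← hL, ← hw, ← hA']
  refine ⟨h3, h2, fun F hF hFc hFδ => ?_⟩
  have hyy : y₀ ≤ y := by exact_mod_cast h7.trans h3
  have h8 := hy₀ y hyy
  have hw0 : 0 < w := by linarith
  have hL0 : 0 < L := by
    by_contra hneg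
    push Not at hneg
    have hL0' : 0 ≤ L := by
      rw [hL]
      exact Real.log_natCast_nonneg M
    have : L = 0 := le_antisymm hneg hL0'
    rw [this, Real.log_zero] at hw
    linarith
  have hyr : (2 : ℝ) ≤ y := by exact_mod_cast h4
  have hlog8 : Real.log (8 * y) ≤ 2 * w := by
    rw [Real.log_mul (by norm_num) (by positivity)]
    have : Real.log 8 ≤ 7 := by
      have := Real.log_le_sub_one_of_pos (show (0 : ℝ) < 8 by norm_num)
      linarith
    linarith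
  have hcard0 : (0 : ℝ) ≤ ((pr (8 * y) \ pr y).card : ℝ) := Nat.cast_nonneg _
  have h9' : 3 * (L / (4 * A')) ≤ ((pr (8 * y) \ pr y).card : ℝ) * (2 * w) := by
    calc 3 * (L / (4 * A')) ≤ 3 * (y : ℝ) := by gcongr
      _ ≤ _ := h8
      _ ≤ _ := by gcongr
  have h10 : (3 / 8) * (L / (A' * w)) ≤ ((pr (8 * y) \ pr y).card : ℝ) := by
    have e1 : (3 / 8) * (L / (A' * w)) = (3 * (L / (4 * A'))) / (2 * w) := by
      field_simp
      norm_num
    rw [e1, div_le_iff₀ (by positivity)]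
    exact h9'
  have h11 : w ^ 2 ≤ (1 / 6) * (L / (A' * w)) := by
    rw [← mul_div_assoc, le_div_iff₀ (by positivity)]
    nlinarith
  have h12 : (3 / 8 - 1 / 6) * (L / (A' * w)) ≤ (((pr (8 * y) \ pr y) \ F).card : ℝ) := by
    have h13 : ((pr (8 * y) \ pr y).card : ℝ) ≤ (((pr (8 * y) \ pr y) \ F).card : ℝ) + F.card := by
      have := Finset.card_le_card_sdiff_add_card (s := pr (8 * y) \ pr y) (t := F)
      exact_mod_cast this
    linarith
  -- the lower bound for z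
  have hq32 : 32 ≤ q := k1
  have hv0 : 0 < v := by
    by_contra hneg
    push Not at hneg
    rcases hneg.lt_or_eq with h | h
    · have h13 : q = Real.log (-v) := by rw [hq, Real.log_neg_eq_log]
      have h14 : 0 < -v := by linarith
      have h15 := Real.add_one_le_exp q
      rw [h13, Real.exp_log h14] at h15
      rw [← h13] at h15
      have h16 : -w < v := by
        rw [hv]
        have := Real.log_nonneg (show 1 ≤ w by linarith)
        linarith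
      have := Real.log_nonneg (show 1 ≤ w by linarith)
      rw [← hv] at this
      linarith
    · rw [h, Real.log_zero] at hq
      linarith
  have hvexp : w = Real.exp v := by rw [hv, Real.exp_log hw0]
  have hqv : q ≤ v := by
    rw [hq]
    have := Real.log_le_sub_one_of_pos hv0
    linarith
  have hu : uM M = 16 * v / q := by rw [uM, ← hL, ← hw, ← hv, ← hq]
  have hz5 : w ^ 5 ≤ Real.exp (w / uM M) := by
    rw [hu]
    have e1 : w ^ 5 = Real.exp (5 * v) := by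
      rw [hvexp, ← Real.exp_nat_mul]
      norm_num
    rw [e1]
    apply Real.exp_le_exp.2
    have e2 : w / (16 * v / q) = w * q / (16 * v) := by
      field_simp
    rw [e2, le_div_iff₀ (by positivity)]
    nlinarith
  have hz4 : w ^ 4 ≤ z := by
    have h13 : Real.exp (w / uM M) < z + 1 := by
      rw [hz, zM, ← hL, ← hw]
      exact Nat.lt_floor_add_one _
    have h14 : w ^ 4 + 1 ≤ w ^ 5 := by
      have : 1 ≤ w ^ 4 := one_le_pow₀ (by linarith)
      nlinarith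
    linarith
  have hz0 : 0 < z := by
    have : (0 : ℝ) < z := lt_of_lt_of_le (by positivity) hz4
    exact_mod_cast this
  -- the length
  obtain ⟨T, hT⟩ : ∃ T, T = ⌊ε * WM M⌋₊ := ⟨_, rfl⟩
  rw [← hT] at h6
  have hWM : WM M = L * w * q / v ^ 2 := by rw [WM, ← hL, ← hw, ← hv, ← hq]
  have hWM0 : 0 ≤ WM M := by
    rw [hWM]
    positivity
  have hWML : WM M ≤ L * w := by
    rw [hWM, div_le_iff₀ (by positivity)]
    have h13 : q ≤ v ^ 2 := by nlinarith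
    have h14 : 0 ≤ L * w := by positivity
    nlinarith
  have hTr : (T : ℝ) ≤ ε * (L * w) := by
    rw [hT]
    refine (Nat.floor_le (by positivity)).trans ?_
    gcongr
  have hextra : (F.card : ℝ) * (T / z) ≤ ε * (L / w) := by
    calc (F.card : ℝ) * (T / z) ≤ w ^ 2 * (ε * (L * w) / w ^ 4) := by
          gcongr
      _ = ε * (L / w) := by
          field_simp
  have hmain : (((Icc 1 T).filter (fun k => ∀ l ∈ (pr y \ pr z) \ F, ¬ l ∣ k)).card : ℝ) *
      ∏ l ∈ pr z \ F, (1 - (1 : ℝ) / l) ≤ (((pr (8 * y) \ pr y) \ F).card : ℝ) := by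
    refine (hcard_avoid hz0 hF hδ hFδ).trans (le_trans ?_ h12)
    rw [div_le_iff₀ hδ]
    have e1 : ε = δ / (6000 * A') := by rw [hε, hA']
    have e2 : 1088 * ε * (L / w) + ε * (L / w) =
        (1089 / 6000) * (L / (A' * w)) * δ := by
      rw [e1]
      field_simp
      norm_num
    have h13 : 0 ≤ L / (A' * w) * δ := by positivity
    nlinarith
  obtain ⟨a, ha⟩ := exists_cover (T := T) ((pr y \ pr z) \ F) (pr z \ F)
    ((pr (8 * y) \ pr y) \ F)
    (Finset.disjoint_left.2 fun l hl1 hl2 => (Finset.mem_sdiff.1 (Finset.mem_sdiff.1 hl1).1).2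
      (Finset.mem_sdiff.1 hl2).1)
    (Finset.disjoint_left.2 fun l hl1 hl2 => (Finset.mem_sdiff.1 (Finset.mem_sdiff.1 hl2).1).2
      (Finset.mem_sdiff.1 (Finset.mem_sdiff.1 hl1).1).1)
    (Finset.disjoint_left.2 fun l hl1 hl2 => (Finset.mem_sdiff.1 (Finset.mem_sdiff.1 hl2).1).2 (by
      have := mem_pr.1 (Finset.mem_sdiff.1 hl1).1
      exact mem_pr.2 ⟨this.1, this.2.trans h1⟩))
    (fun l hl => (mem_pr.1 (Finset.mem_sdiff.1 hl).1).1.pos) hmain
  have hsub : ∀ l ∈ (pr y \ pr z) \ F ∪ pr z \ F ∪ (pr (8 * y) \ pr y) \ F,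
      l ∈ pr (8 * y) \ F := by
    intro l hl
    rw [mem_union, mem_union, Finset.mem_sdiff, Finset.mem_sdiff, Finset.mem_sdiff, Finset.mem_sdiff, Finset.mem_sdiff] at hl
    rw [Finset.mem_sdiff]
    rcases hl with (hl | hl) | hl
    · have := mem_pr.1 hl.1.1
      exact ⟨mem_pr.2 ⟨this.1, by omega⟩, hl.2⟩
    · have := mem_pr.1 hl.1
      exact ⟨mem_pr.2 ⟨this.1, by omega⟩, hl.2⟩
    · exact ⟨hl.1.1, hl.2⟩
  obtain ⟨α, hα1, hα2⟩ := single_shift (pr (8 * y) \ F)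
    (fun l hl => (mem_pr.1 (Finset.mem_sdiff.1 hl).1).1) a (T := T) (by
      intro k hk hkT
      obtain ⟨l, hl, hlk⟩ := ha k hk hkT
      exact ⟨l, hsub l hl, hlk⟩)
  refine ⟨α, hα1, fun n hn1 hn2 => hα2 n hn1 ?_⟩
  rw [hT]
  exact Nat.le_floor hn2

end

end Pool.Agent.Lib_helper72.HM
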