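import Mathlib
import Pool.Agent.Lib_helper72.HM.Cover
import Pool.Agent.Lib_helper72.LP.Main
import Pool.Agent.Lib_helper72.AS.ClassSum

set_option autoImplicit false

/-!
Counting the moduli by their residues modulo the product of the primes up to `Y`.
-/

namespace Pool.Agent.Lib_helper72.HM

open Finset BlockSieve Pool.Agent.Lib_helper72.AP Pool.Agent.Lib_helper72.AS
  Pool.Agent.Lib_helper72.LP

noncomputable section

/-- the primes up to `Y` dividing `r` -/
def sp (Y r : ℕ) : Finset ℕ := (pr Y).filter (fun l => l ∣ r)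

/-- the product of the primes up to `Y` -/
def PP (Y : ℕ) : ℕ := ∏ l ∈ pr Y, l

/-- the product of the primes up to `Y` outside `S` -/
def WW (Y : ℕ) (S : Finset ℕ) : ℕ := ∏ l ∈ pr Y \ S, l

/-- the product of the elements of `S` -/
def DD (S : Finset ℕ) : ℕ := ∏ l ∈ S, l

variable {Y : ℕ} {S : Finset ℕ}

lemma pr_prime {l : ℕ} (hl : l ∈ pr Y) : l.Prime := (mem_pr.1 hl).1

lemma sdiff_prime {l : ℕ} (hl : l ∈ pr Y \ S) : l.Prime := pr_prime (Finset.mem_sdiff.1 hl).1

lemma PP_pos : 0 < PP Y := Finset.prod_pos fun _ hl => (pr_prime hl).pos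

lemma WW_pos : 0 < WW Y S := Finset.prod_pos fun _ hl => (sdiff_prime hl).pos

lemma DD_mul_WW (hS : S ⊆ pr Y) : DD S * WW Y S = PP Y := by
  rw [DD, WW, PP, mul_comm]
  exact Finset.prod_sdiff hS

lemma dvd_PP {l : ℕ} (hl : l ∈ pr Y) : l ∣ PP Y := Finset.dvd_prod_of_mem _ hl

lemma dvd_WW {l : ℕ} (hl : l ∈ pr Y \ S) : l ∣ WW Y S := Finset.dvd_prod_of_mem _ hl

lemma mem_of_dvd_WW {l : ℕ} (hl : l.Prime) (h : l ∣ WW Y S) : l ∈ pr Y \ S := by
  rw [WW, Prime.dvd_finset_prod_iff hl.prime] at h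
  obtain ⟨q, hq, hlq⟩ := h
  rwa [(Nat.prime_dvd_prime_iff_eq hl (sdiff_prime hq)).1 hlq]

lemma coprime_DW (hS : S ⊆ pr Y) : Nat.Coprime (DD S) (WW Y S) := by
  apply Nat.Coprime.prod_left
  intro l hl
  rw [Nat.Prime.coprime_iff_not_dvd (pr_prime (hS hl))]
  intro h
  exact (Finset.mem_sdiff.1 (mem_of_dvd_WW (pr_prime (hS hl)) h)).2 hl

lemma sp_sub (r : ℕ) : sp Y r ⊆ pr Y := Finset.filter_subset _ _

lemma sp_mod (m : ℕ) : sp Y (m % PP Y) = sp Y m := by
  apply Finset.filter_congr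
  intro l hl
  exact Nat.dvd_mod_iff (dvd_PP hl)

lemma DD_dvd (hS : S ⊆ pr Y) {r : ℕ} (h : ∀ l ∈ S, l ∣ r) : DD S ∣ r :=
  Finset.prod_primes_dvd r (fun l hl => (pr_prime (hS hl)).prime) h

lemma fiber_le (hS : S ⊆ pr Y) :
    ((range (PP Y)).filter (fun r => sp Y r = S)).card ≤ (WW Y S).totient := by
  rw [← card_units_range]
  apply Finset.card_le_card_of_injOn (fun r => r % WW Y S)
  · intro r hr
    rw [Finset.mem_coe, mem_filter, mem_range] at hr
    rw [Finset.mem_coe, mem_filter, mem_range]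
    refine ⟨Nat.mod_lt _ WW_pos, ?_⟩
    rw [Nat.coprime_iff_gcd_eq_one]
    by_contra hne
    obtain ⟨l, hl, h1, h2⟩ := Nat.Prime.not_coprime_iff_dvd.1 hne
    have h3 := mem_of_dvd_WW hl h2
    have h4 : l ∣ r := (Nat.dvd_mod_iff h2).1 h1
    have h5 : l ∈ sp Y r := mem_filter.2 ⟨(Finset.mem_sdiff.1 h3).1, h4⟩
    rw [hr.2] at h5
    exact (Finset.mem_sdiff.1 h3).2 h5
  · intro r hr r' hr' h
    rw [Finset.mem_coe, mem_filter, mem_range] at hr hr'
    have h1 : DD S ∣ r := DD_dvd hS (fun l hl => by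
      rw [← hr.2] at hl
      exact (mem_filter.1 hl).2)
    have h2 : DD S ∣ r' := DD_dvd hS (fun l hl => by
      rw [← hr'.2] at hl
      exact (mem_filter.1 hl).2)
    have h3 : r ≡ r' [MOD DD S] :=
      (Nat.modEq_zero_iff_dvd.2 h1).trans (Nat.modEq_zero_iff_dvd.2 h2).symm
    have h4 : r ≡ r' [MOD WW Y S] := h
    have h5 : r ≡ r' [MOD DD S * WW Y S] :=
      (Nat.modEq_and_modEq_iff_modEq_mul (coprime_DW hS)).1 ⟨h3, h4⟩
    rw [DD_mul_WW hS] at h5
    exact Nat.ModEq.eq_of_lt_of_lt h5 hr.1 hr'.1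

lemma fiber_ge (hS : S ⊆ pr Y) {α : ℕ} (hα : ∀ l ∈ pr Y \ S, ¬ l ∣ α) {𝓑 : Finset ℕ}
    (h𝓑 : ∀ s ∈ 𝓑, s < WW Y S ∧ Nat.Coprime s (WW Y S)) :
    𝓑.card ≤ ((range (PP Y)).filter (fun r => sp Y r = S ∧ (α * r) % WW Y S ∈ 𝓑)).card := by
  apply Finset.card_le_card_of_surjOn (fun r => (α * r) % WW Y S)
  intro s hs
  rw [Finset.mem_coe] at hs
  obtain ⟨hs1, hs2⟩ := h𝓑 s hs
  have hcop : Nat.Coprime α (WW Y S) := by
    rw [Nat.coprime_iff_gcd_eq_one]
    by_contra hne
    obtain ⟨l, hl, h1, h2⟩ := Nat.Prime.not_coprime_iff_dvd.1 hne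
    exact hα l (mem_of_dvd_WW hl h2) h1
  have : NeZero (WW Y S) := ⟨WW_pos.ne'⟩
  obtain ⟨t, ht⟩ : ∃ t : ℕ, α * t ≡ s [MOD WW Y S] := by
    refine ⟨((α : ZMod (WW Y S))⁻¹ * s).val, ?_⟩
    rw [← ZMod.natCast_eq_natCast_iff]
    push_cast
    rw [ZMod.natCast_zmod_val, ← mul_assoc, ZMod.coe_mul_inv_eq_one α hcop, one_mul]
  obtain ⟨r₀, hr1, hr2⟩ := Nat.chineseRemainder (coprime_DW hS) 0 t
  have hPW : WW Y S ∣ PP Y := ⟨DD S, by rw [mul_comm, DD_mul_WW hS]⟩
  have hPD : DD S ∣ PP Y := ⟨WW Y S, by rw [DD_mul_WW hS]⟩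
  have e1 : α * (r₀ % PP Y) ≡ s [MOD WW Y S] := by
    have h1 : r₀ % PP Y ≡ r₀ [MOD WW Y S] := (Nat.mod_modEq _ _).of_dvd hPW
    exact ((h1.trans hr2).mul_left α).trans ht
  have e2 : (α * (r₀ % PP Y)) % WW Y S = s := by
    have h1 : (α * (r₀ % PP Y)) % WW Y S = s % WW Y S := e1
    rwa [Nat.mod_eq_of_lt hs1] at h1
  refine ⟨r₀ % PP Y, ?_, e2⟩
  rw [Finset.mem_coe, mem_filter, mem_range]
  refine ⟨Nat.mod_lt _ PP_pos, ?_, by rw [e2]; exact hs⟩
  rw [sp_mod]
  ext l
  rw [sp, mem_filter]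
  constructor
  · rintro ⟨hl, hlr⟩
    by_contra hlS
    have hlW := dvd_WW (Finset.mem_sdiff.2 ⟨hl, hlS⟩)
    have h1 : α * r₀ ≡ s [MOD l] := by
      have h2 : α * (r₀ % PP Y) ≡ s [MOD l] := e1.of_dvd hlW
      have h3 : r₀ % PP Y ≡ r₀ [MOD l] := (Nat.mod_modEq _ _).of_dvd (dvd_PP hl)
      exact ((h3.mul_left α).symm).trans h2
    have h2 : l ∣ s := by
      have h3 : α * r₀ ≡ 0 [MOD l] := Nat.modEq_zero_iff_dvd.2 (hlr.mul_left α)
      exact Nat.modEq_zero_iff_dvd.1 (h1.symm.trans h3)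
    have h3 := Nat.dvd_gcd h2 hlW
    rw [hs2] at h3
    exact (pr_prime hl).one_lt.ne' (Nat.dvd_one.1 h3)
  · intro hl
    refine ⟨hS hl, ?_⟩
    have h1 : l ∣ DD S := Finset.dvd_prod_of_mem _ hl
    exact Nat.modEq_zero_iff_dvd.1 (hr1.of_dvd h1)

/-- counting the integers with residues in a set -/
lemma count_residues {P N U : ℕ} (hP : 0 < P) (G : Finset ℕ) (hG : ∀ r ∈ G, r < P) :
    (G.card : ℝ) * (((U : ℝ) - N) / P - 1) ≤ ((Ioc N U).filter (fun m => m % P ∈ G)).card := by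
  classical
  have h1 : ((Ioc N U).filter (fun m => m % P ∈ G)).card =
      ∑ r ∈ G, (((Ioc N U).filter (fun m => m % P ∈ G)).filter (fun m => m % P = r)).card :=
    Finset.card_eq_sum_card_fiberwise (fun m hm => (mem_filter.1 hm).2)
  rw [h1]
  push_cast
  rw [← nsmul_eq_mul, ← Finset.sum_const]
  apply Finset.sum_le_sum
  intro r hr
  have e1 : ((Ioc N U).filter (fun m => m % P ∈ G)).filter (fun m => m % P = r) =
      (Ioc N U).filter (fun m => m ≡ r [MOD P]) := by
    rw [Finset.filter_filter]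
    apply Finset.filter_congr
    intro m _
    unfold Nat.ModEq
    rw [Nat.mod_eq_of_lt (hG r hr)]
    constructor
    · exact fun h => h.2
    · intro h
      exact ⟨h ▸ hr, h⟩
  rw [e1]
  have h2 := Nat.Ioc_filter_modEq_card N U hP r
  have h3 : ((U : ℚ) - N) / P - 1 ≤ (((Ioc N U).filter (fun m => m ≡ r [MOD P])).card : ℚ) := by
    have h4 : (((Ioc N U).filter (fun m => m ≡ r [MOD P])).card : ℚ) =
        ((((Ioc N U).filter (fun m => m ≡ r [MOD P])).card : ℤ) : ℚ) := by push_cast; rfl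
    rw [h4, h2]
    have h5 := Int.sub_one_lt_floor (((U : ℚ) - r) / P)
    have h6 := Int.floor_le (((N : ℚ) - r) / P)
    have h7 : ((⌊((U : ℚ) - r) / P⌋ - ⌊((N : ℚ) - r) / P⌋ : ℤ) : ℚ) ≤
        ((max (⌊((U : ℚ) - r) / P⌋ - ⌊((N : ℚ) - r) / P⌋) 0 : ℤ) : ℚ) := by
      exact_mod_cast le_max_left _ _
    refine le_trans ?_ h7
    push_cast
    have h8 : ((U : ℚ) - N) / P = ((U : ℚ) - r) / P - ((N : ℚ) - r) / P := by ring
    rw [h8]
    linarith
  exact_mod_cast h3

theorem count_main {N U : ℕ} (good : Finset ℕ → Prop) [DecidablePred good] (α : Finset ℕ → ℕ)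
    (𝓑 : Finset ℕ → Finset ℕ) {θ β : ℝ} (hθ : 0 ≤ θ)
    (hα : ∀ S ⊆ pr Y, good S → ∀ l ∈ pr Y \ S, ¬ l ∣ α S)
    (h𝓑 : ∀ S ⊆ pr Y, good S → ∀ s ∈ 𝓑 S, s < WW Y S ∧ Nat.Coprime s (WW Y S))
    (h𝓑c : ∀ S ⊆ pr Y, good S → θ * (WW Y S).totient ≤ (𝓑 S).card)
    (hbad : (((range (PP Y)).filter (fun r => ¬ good (sp Y r))).card : ℝ) ≤ β * PP Y)
    (hU : (PP Y : ℝ) ≤ U - N) :
    θ * (1 - β) * (((U : ℝ) - N) - PP Y) ≤ ((Ioc N U).filter (fun m => good (sp Y m) ∧
      (α (sp Y m) * m) % (WW Y (sp Y m)) ∈ 𝓑 (sp Y m))).card := by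
  classical
  set P := PP Y with hP
  have hP0 : 0 < P := PP_pos
  have hPr : (0 : ℝ) < P := by exact_mod_cast hP0
  set G := (range P).filter (fun r => good (sp Y r) ∧
    (α (sp Y r) * r) % (WW Y (sp Y r)) ∈ 𝓑 (sp Y r)) with hG
  set H := (range P).filter (fun r => good (sp Y r)) with hH
  have h1 := count_residues (N := N) (U := U) hP0 G (fun r hr => mem_range.1 (mem_filter.1 hr).1)
  have h2 : (Ioc N U).filter (fun m => m % P ∈ G) = (Ioc N U).filter (fun m => good (sp Y m) ∧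
      (α (sp Y m) * m) % (WW Y (sp Y m)) ∈ 𝓑 (sp Y m)) := by
    apply Finset.filter_congr
    intro m _
    rw [hG, mem_filter, mem_range, hP, sp_mod]
    have h3 : (α (sp Y m) * (m % PP Y)) % WW Y (sp Y m) = (α (sp Y m) * m) % WW Y (sp Y m) := by
      have hPW : WW Y (sp Y m) ∣ PP Y :=
        ⟨DD (sp Y m), by rw [mul_comm, DD_mul_WW (sp_sub m)]⟩
      have h4 : m % PP Y ≡ m [MOD WW Y (sp Y m)] := (Nat.mod_modEq _ _).of_dvd hPW
      exact h4.mul_left _
    rw [h3]
    constructor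
    · exact fun h => h.2
    · exact fun h => ⟨Nat.mod_lt _ PP_pos, h⟩
  rw [h2] at h1
  refine le_trans ?_ h1
  -- the comparison of `G` and `H`
  have hGH : θ * (H.card : ℝ) ≤ G.card := by
    have e1 : H.card = ∑ S ∈ (pr Y).powerset, (H.filter (fun r => sp Y r = S)).card :=
      Finset.card_eq_sum_card_fiberwise (fun r _ => by
        rw [Finset.mem_coe, mem_powerset]
        exact sp_sub r)
    have e2 : G.card = ∑ S ∈ (pr Y).powerset, (G.filter (fun r => sp Y r = S)).card :=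
      Finset.card_eq_sum_card_fiberwise (fun r _ => by
        rw [Finset.mem_coe, mem_powerset]
        exact sp_sub r)
    rw [e1, e2]
    push_cast
    rw [Finset.mul_sum]
    apply Finset.sum_le_sum
    intro S hS
    rw [mem_powerset] at hS
    by_cases hg : good S
    · have g1 : (H.filter (fun r => sp Y r = S)).card ≤ (WW Y S).totient := by
        refine le_trans (Finset.card_le_card ?_) (fiber_le hS)
        intro r hr
        rw [mem_filter, hH, mem_filter] at hr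
        exact mem_filter.2 ⟨hr.1.1, hr.2⟩
      have g2 : (𝓑 S).card ≤ (G.filter (fun r => sp Y r = S)).card := by
        refine (fiber_ge hS (hα S hS hg) (h𝓑 S hS hg)).trans (Finset.card_le_card ?_)
        intro r hr
        rw [mem_filter] at hr
        obtain ⟨a1, a2, a3⟩ := hr
        rw [mem_filter, hG, mem_filter, a2]
        exact ⟨⟨a1, hg, a3⟩, rfl⟩
      have g3 := h𝓑c S hS hg
      calc θ * ((H.filter (fun r => sp Y r = S)).card : ℝ) ≤ θ * (WW Y S).totient := by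
            gcongr
        _ ≤ (𝓑 S).card := g3
        _ ≤ _ := by exact_mod_cast g2
    · have g1 : H.filter (fun r => sp Y r = S) = ∅ := by
        rw [Finset.filter_eq_empty_iff]
        intro r hr h
        rw [hH, mem_filter, h] at hr
        exact hg hr.2
      rw [g1]
      simp
  have hH1 : (1 - β) * P ≤ (H.card : ℝ) := by
    have e1 := Finset.card_filter_add_card_filter_not (s := range P) (fun r => good (sp Y r))
    rw [card_range] at e1
    have e2 : (H.card : ℝ) + ((range P).filter (fun r => ¬ good (sp Y r))).card = P := by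
      exact_mod_cast e1
    linarith
  have h3 : 0 ≤ ((U : ℝ) - N) / P - 1 := by
    rw [sub_nonneg, le_div_iff₀ hPr]
    linarith
  calc θ * (1 - β) * (((U : ℝ) - N) - P) = θ * ((1 - β) * P) * (((U : ℝ) - N) / P - 1) := by
        field_simp
    _ ≤ θ * H.card * (((U : ℝ) - N) / P - 1) := by gcongr
    _ ≤ G.card * (((U : ℝ) - N) / P - 1) := by gcongr

/-! ### few bad residues -/

lemma card_mult_le {P l : ℕ} (hl : 0 < l) (hlP : l ∣ P) :
    (((range P).filter (fun r => l ∣ r)).card : ℝ) ≤ P / l := by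
  have h1 : ((range P).filter (fun r => l ∣ r)).card ≤ (range (P / l)).card := by
    apply Finset.card_le_card_of_injOn (fun r => r / l)
    · intro r hr
      rw [Finset.mem_coe, mem_filter, mem_range] at hr
      rw [Finset.mem_coe, mem_range]
      exact Nat.div_lt_div_of_lt_of_dvd hlP hr.1
    · intro r hr r' hr' h
      rw [Finset.mem_coe, mem_filter, mem_range] at hr hr'
      simp only at h
      rw [← Nat.div_mul_cancel hr.2, ← Nat.div_mul_cancel hr'.2, h]
  rw [card_range] at h1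
  calc (((range P).filter (fun r => l ∣ r)).card : ℝ) ≤ ((P / l : ℕ) : ℝ) := by exact_mod_cast h1
    _ ≤ P / l := Nat.cast_div_le

lemma sum_weights {P : ℕ} (S : Finset ℕ) (hS : ∀ l ∈ S, 0 < l ∧ l ∣ P) (f : ℕ → ℝ)
    (hf : ∀ l ∈ S, 0 ≤ f l) :
    ∑ r ∈ range P, ∑ l ∈ S.filter (fun l => l ∣ r), f l ≤ P * ∑ l ∈ S, f l / l := by
  classical
  have e1 : ∑ r ∈ range P, ∑ l ∈ S.filter (fun l => l ∣ r), f l =
      ∑ l ∈ S, f l * ((range P).filter (fun r => l ∣ r)).card := by
    calc ∑ r ∈ range P, ∑ l ∈ S.filter (fun l => l ∣ r), f l =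
          ∑ r ∈ range P, ∑ l ∈ S, if l ∣ r then f l else 0 := by
          apply Finset.sum_congr rfl
          intro r _
          rw [Finset.sum_filter]
      _ = ∑ l ∈ S, ∑ r ∈ range P, if l ∣ r then f l else 0 := Finset.sum_comm
      _ = _ := by
          apply Finset.sum_congr rfl
          intro l _
          rw [← Finset.sum_filter, Finset.sum_const, nsmul_eq_mul, mul_comm]
  rw [e1, Finset.mul_sum]
  apply Finset.sum_le_sum
  intro l hl
  calc f l * (((range P).filter (fun r => l ∣ r)).card : ℝ) ≤ f l * (P / l) := by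
        have := card_mult_le (hS l hl).1 (hS l hl).2
        have := hf l hl
        gcongr
    _ = P * (f l / l) := by ring

lemma markov {P : ℕ} (g : ℕ → ℝ) (hg : ∀ r ∈ range P, 0 ≤ g r) {a b : ℝ}
    (hb : ∑ r ∈ range P, g r ≤ b) :
    a * ((range P).filter (fun r => a < g r)).card ≤ b := by
  calc a * (((range P).filter (fun r => a < g r)).card : ℝ) =
        ∑ r ∈ (range P).filter (fun r => a < g r), a := by
        rw [Finset.sum_const, nsmul_eq_mul, mul_comm]
    _ ≤ ∑ r ∈ (range P).filter (fun r => a < g r), g r := by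
        apply Finset.sum_le_sum
        intro r hr
        exact (mem_filter.1 hr).2.le
    _ ≤ ∑ r ∈ range P, g r := by
        apply Finset.sum_le_sum_of_subset_of_nonneg (Finset.filter_subset _ _)
        intro r hr _
        exact hg r hr
    _ ≤ b := hb

/-- the goodness of a set of primes -/
def Gd (K : ℕ) (w : ℝ) (S : Finset ℕ) : Prop :=
  (S.card : ℝ) ≤ w ^ 2 ∧ ∑ l ∈ S.filter (fun l => K < l), (1 : ℝ) / l ≤ 1 / 2

lemma bad_le {K : ℕ} (hK : 0 < K) {w : ℝ} (hw : 0 < w) [DecidablePred (Gd K w)] :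
    (((range (PP Y)).filter (fun r => ¬ Gd K w (sp Y r))).card : ℝ) ≤
      ((1 + Real.log Y) / w ^ 2 + 2 / K) * PP Y := by
  classical
  have hKr : (0 : ℝ) < K := by exact_mod_cast hK
  -- first condition
  have h1 := sum_weights (P := PP Y) (pr Y) (fun l hl => ⟨(pr_prime hl).pos, dvd_PP hl⟩)
    (fun _ => 1) (fun _ _ => zero_le_one)
  have h2 : ∑ l ∈ pr Y, (1 : ℝ) / l ≤ 1 + Real.log Y := by
    refine le_trans ?_ (harm_le le_rfl)
    apply Finset.sum_le_sum_of_subset_of_nonneg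
    · intro l hl
      rw [mem_Icc]
      exact ⟨(pr_prime hl).pos, (mem_pr.1 hl).2⟩
    · intro l _ _
      positivity
  have hPr : (0 : ℝ) < PP Y := by exact_mod_cast (PP_pos : 0 < PP Y)
  have h3 := markov (P := PP Y) (fun r => ∑ l ∈ (pr Y).filter (fun l => l ∣ r), (1 : ℝ))
    (fun r _ => Finset.sum_nonneg fun _ _ => zero_le_one) (a := w ^ 2)
    (b := PP Y * (1 + Real.log Y)) (h1.trans (by gcongr))
  -- second condition
  have h4 := sum_weights (P := PP Y) ((pr Y).filter (fun l => K < l))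
    (fun l hl => ⟨(pr_prime (mem_filter.1 hl).1).pos, dvd_PP (mem_filter.1 hl).1⟩)
    (fun l => 1 / (l : ℝ)) (fun _ _ => by positivity)
  have h5 : ∑ l ∈ (pr Y).filter (fun l => K < l), 1 / (l : ℝ) / l ≤ 1 / K := by
    by_cases hKY : K ≤ Y
    · have h6 := sum_Ioc_inv_sq_le_sub (α := ℝ) hK.ne' hKY
      have h7 : ∑ l ∈ (pr Y).filter (fun l => K < l), 1 / (l : ℝ) / l ≤
          ∑ i ∈ Ioc K Y, ((i : ℝ) ^ 2)⁻¹ := by
        calc ∑ l ∈ (pr Y).filter (fun l => K < l), 1 / (l : ℝ) / l =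
              ∑ l ∈ (pr Y).filter (fun l => K < l), ((l : ℝ) ^ 2)⁻¹ := by
              apply Finset.sum_congr rfl
              intro l _
              rw [div_div, sq, one_div]
          _ ≤ _ := by
              apply Finset.sum_le_sum_of_subset_of_nonneg
              · intro l hl
                rw [mem_filter] at hl
                rw [mem_Ioc]
                exact ⟨hl.2, (mem_pr.1 hl.1).2⟩
              · intro l _ _
                positivity
      refine h7.trans (h6.trans ?_)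
      rw [one_div]
      have : 0 ≤ ((Y : ℝ))⁻¹ := by positivity
      linarith
    · have e1 : (pr Y).filter (fun l => K < l) = ∅ := by
        rw [Finset.filter_eq_empty_iff]
        intro l hl
        have := (mem_pr.1 hl).2
        omega
      rw [e1, Finset.sum_empty]
      positivity
  have h6 := markov (P := PP Y)
    (fun r => ∑ l ∈ ((pr Y).filter (fun l => K < l)).filter (fun l => l ∣ r), 1 / (l : ℝ))
    (fun r _ => Finset.sum_nonneg fun _ _ => by positivity) (a := 1 / 2)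
    (b := PP Y * (1 / K)) (h4.trans (by gcongr))
  -- union
  have h7 : (range (PP Y)).filter (fun r => ¬ Gd K w (sp Y r)) ⊆
      (range (PP Y)).filter (fun r => w ^ 2 < ∑ l ∈ (pr Y).filter (fun l => l ∣ r), (1 : ℝ)) ∪
      (range (PP Y)).filter (fun r => 1 / 2 <
        ∑ l ∈ ((pr Y).filter (fun l => K < l)).filter (fun l => l ∣ r), 1 / (l : ℝ)) := by
    intro r hr
    rw [mem_filter] at hr
    rw [mem_union, mem_filter, mem_filter]
    by_contra hcon
    rw [not_or, not_and, not_and] at hcon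
    obtain ⟨c1, c2⟩ := hcon
    have c1 := c1 hr.1
    have c2 := c2 hr.1
    push Not at c1 c2
    apply hr.2
    constructor
    · rw [Finset.sum_const, nsmul_eq_mul, mul_one] at c1
      exact c1
    · refine le_trans (le_of_eq ?_) c2
      apply Finset.sum_congr _ fun _ _ => rfl
      rw [sp, Finset.filter_comm]
  have h8 : (((range (PP Y)).filter (fun r => ¬ Gd K w (sp Y r))).card : ℝ) ≤
      ((range (PP Y)).filter
        (fun r => w ^ 2 < ∑ l ∈ (pr Y).filter (fun l => l ∣ r), (1 : ℝ))).card +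
      ((range (PP Y)).filter (fun r => 1 / 2 <
        ∑ l ∈ ((pr Y).filter (fun l => K < l)).filter (fun l => l ∣ r), 1 / (l : ℝ))).card := by
    exact_mod_cast (Finset.card_le_card h7).trans (Finset.card_union_le _ _)
  refine h8.trans ?_
  have h9 : (((range (PP Y)).filter
        (fun r => w ^ 2 < ∑ l ∈ (pr Y).filter (fun l => l ∣ r), (1 : ℝ))).card : ℝ) ≤
      (1 + Real.log Y) / w ^ 2 * PP Y := by
    rw [div_mul_eq_mul_div, le_div_iff₀ (by positivity)]
    linarith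
  have h10 : (((range (PP Y)).filter (fun r => 1 / 2 <
        ∑ l ∈ ((pr Y).filter (fun l => K < l)).filter (fun l => l ∣ r), 1 / (l : ℝ))).card : ℝ) ≤
      2 / K * PP Y := by
    have : 2 / (K : ℝ) * PP Y = 2 * (PP Y * (1 / K)) := by ring
    rw [this]
    linarith
  linarith

/-- the ratio `φ(D) / D` for a good set -/
lemma good_ratio {K : ℕ} {w : ℝ} (hS : ∀ l ∈ S, l.Prime) (hg : Gd K w S) :
    1 / 2 * ∏ l ∈ pr K, (1 - (1 : ℝ) / l) ≤ ∏ l ∈ S, (1 - (1 : ℝ) / l) := by
  classical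
  rw [← Finset.prod_filter_mul_prod_filter_not S (fun l => K < l)]
  have h1 : (1 / 2 : ℝ) ≤ ∏ l ∈ S.filter (fun l => K < l), (1 - (1 : ℝ) / l) := by
    have h2 := one_sub_sum_le (S.filter (fun l => K < l)) (fun l : ℕ => (1 : ℝ) / l)
      (fun l _ => by positivity) (fun l hl => by
        have : (1 : ℝ) ≤ l := by exact_mod_cast (hS l (mem_filter.1 hl).1).one_le
        rw [div_le_one (by linarith)]
        exact this)
    have h3 := hg.2
    refine le_trans ?_ h2
    linarith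
  have h2 : ∏ l ∈ pr K, (1 - (1 : ℝ) / l) ≤
      ∏ l ∈ S.filter (fun l => ¬ K < l), (1 - (1 : ℝ) / l) := by
    apply prod_subset_ge (fun l hl => pr_prime hl)
    intro l hl
    rw [mem_filter] at hl
    exact mem_pr.2 ⟨hS l hl.1, by omega⟩
  have h3 : 0 ≤ ∏ l ∈ pr K, (1 - (1 : ℝ) / l) :=
    Finset.prod_nonneg fun l hl => (one_sub_inv_mem (pr_prime hl)).1.le
  calc 1 / 2 * ∏ l ∈ pr K, (1 - (1 : ℝ) / l) ≤
        (∏ l ∈ S.filter (fun l => K < l), (1 - (1 : ℝ) / l)) *
          ∏ l ∈ pr K, (1 - (1 : ℝ) / l) := by gcongr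
    _ ≤ _ := by
        apply mul_le_mul_of_nonneg_left h2
        linarith

end

end Pool.Agent.Lib_helper72.HM
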