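import Mathlib
import Pool.Agent.Lib_helper72.AS.ClassSum

set_option autoImplicit false

/-!
Selberg's weights are bounded by `1`; Brun-Titchmarsh with the constant `2`.
-/

namespace Pool.Agent.Lib_helper72.HM

open Finset ArithmeticFunction BoundingSieve Pool.Agent.Lib_helper72.AP Pool.Agent.Lib_helper72.AS
open scoped ArithmeticFunction.Moebius

noncomputable section

section general

variable {s : BoundingSieve} {z : ℕ}

lemma sum_dvd_selD_le {d : ℕ} (hd : d ∣ s.prodPrimes) :
    ∑ n ∈ (selD s z).filter (fun n => d ∣ n), s.selbergTerms n ≤ s.nu d * selS s z := by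
  classical
  have hP := prodPrimes_ne_zero (s := s)
  have hd0 : 0 < d := Nat.pos_of_ne_zero (ne_zero_of_dvd_ne_zero hP hd)
  have hnu := nu_pos_of_dvd_prodPrimes hd
  have hg := selbergTerms_pos (s := s) hd
  have hsum := sum_divisors_selbergTerms_eq_selbergTerms_mul_nu_inv (s := s) hd
  set A := ∑ n ∈ (selD s z).filter (fun n => d ∣ n), s.selbergTerms n with hA
  -- structure of the multiples of `d`
  have hstr : ∀ n ∈ (selD s z).filter (fun n => d ∣ n), Nat.Coprime d (n / d) ∧
      d * (n / d) = n ∧ 0 < n / d := by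
    intro n hn
    rw [mem_filter] at hn
    have h1 := (mem_selD.1 hn.1).1
    have hsq : Squarefree n := Squarefree.squarefree_of_dvd h1 s.prodPrimes_squarefree
    have h2 : d * (n / d) = n := Nat.mul_div_cancel' hn.2
    have h3 : Nat.Coprime d (n / d) := by
      apply Nat.coprime_of_squarefree_mul
      rw [h2]
      exact hsq
    refine ⟨h3, h2, Nat.div_pos (Nat.le_of_dvd (Nat.pos_of_ne_zero hsq.ne_zero) hn.2) hd0⟩
  have key : (∑ l ∈ (Nat.divisors s.prodPrimes).filter (fun l => l ∣ d), s.selbergTerms l) * A ≤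
      s.selbergTerms d * selS s z := by
    rw [hA, Finset.sum_mul_sum, ← Finset.sum_product']
    have e1 : ∀ x ∈ (Nat.divisors s.prodPrimes).filter (fun l => l ∣ d) ×ˢ
        (selD s z).filter (fun n => d ∣ n),
        s.selbergTerms x.1 * s.selbergTerms x.2 =
          s.selbergTerms d * s.selbergTerms (x.1 * (x.2 / d)) := by
      intro x hx
      rw [mem_product] at hx
      obtain ⟨h1, h2, _⟩ := hstr x.2 hx.2
      have h3 : x.1 ∣ d := (mem_filter.1 hx.1).2
      have h4 : Nat.Coprime x.1 (x.2 / d) := Nat.Coprime.coprime_dvd_left h3 h1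
      rw [selbergTerms_isMultiplicative.map_mul_of_coprime h4]
      conv_lhs => rw [← h2]
      rw [selbergTerms_isMultiplicative.map_mul_of_coprime h1]
      ring
    rw [Finset.sum_congr rfl e1, ← Finset.mul_sum]
    apply mul_le_mul_of_nonneg_left _ hg.le
    have hinj : Set.InjOn (fun x : ℕ × ℕ => x.1 * (x.2 / d))
        ((Nat.divisors s.prodPrimes).filter (fun l => l ∣ d) ×ˢ
        (selD s z).filter (fun n => d ∣ n) : Finset (ℕ × ℕ)) := by
      rintro ⟨k, n⟩ hx ⟨k', n'⟩ hx' h
      rw [Finset.mem_coe, mem_product] at hx hx'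
      obtain ⟨h1, h2, h3⟩ := hstr n hx.2
      obtain ⟨h1', h2', h3'⟩ := hstr n' hx'.2
      have hk : k ∣ d := (mem_filter.1 hx.1).2
      have hk' : k' ∣ d := (mem_filter.1 hx'.1).2
      simp only at h
      have g1 : Nat.gcd (k * (n / d)) d = k := by
        rw [Nat.Coprime.gcd_mul_right_cancel _ h1.symm]
        exact Nat.gcd_eq_left hk
      have g2 : Nat.gcd (k' * (n' / d)) d = k' := by
        rw [Nat.Coprime.gcd_mul_right_cancel _ h1'.symm]
        exact Nat.gcd_eq_left hk'
      have hkk : k = k' := by rw [← g1, h, g2]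
      subst hkk
      have hk0 : 0 < k := Nat.pos_of_dvd_of_pos hk hd0
      have h5 : n / d = n' / d := Nat.eq_of_mul_eq_mul_left hk0 h
      rw [← h2, ← h2', h5]
    rw [← Finset.sum_image (f := fun n => s.selbergTerms n) hinj, selS]
    apply Finset.sum_le_sum_of_subset_of_nonneg
    · intro m hm
      rw [mem_image] at hm
      obtain ⟨⟨k, n⟩, hx, rfl⟩ := hm
      rw [mem_product] at hx
      obtain ⟨h1, h2, h3⟩ := hstr n hx.2
      have hk : k ∣ d := (mem_filter.1 hx.1).2
      have hn := mem_selD.1 (mem_filter.1 hx.2).1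
      simp only at h2 ⊢
      rw [mem_selD]
      constructor
      · refine dvd_trans ?_ hn.1
        conv_rhs => rw [← h2]
        exact Nat.mul_dvd_mul_right hk _
      · refine le_trans ?_ hn.2
        conv_rhs => rw [← h2]
        exact Nat.mul_le_mul_right _ (Nat.le_of_dvd hd0 hk)
    · intro i hi _
      exact selbergTerms_nonneg_of_mem hi
  rw [Finset.sum_filter, hsum] at key
  have h1 : (s.nu d)⁻¹ * A ≤ selS s z := by
    have h2 : s.selbergTerms d * ((s.nu d)⁻¹ * A) ≤ s.selbergTerms d * selS s z := by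
      rw [← mul_assoc]
      exact key
    exact le_of_mul_le_mul_left h2 hg
  rw [inv_mul_le_iff₀ hnu] at h1
  exact h1

lemma abs_selW_le_one (hz : 1 ≤ z) {d : ℕ} (hd : d ∣ s.prodPrimes) :
    |selW s z d| ≤ 1 := by
  have hS := selS_pos (s := s) hz
  have hnu := nu_pos_of_dvd_prodPrimes hd
  have hsum := sum_dvd_selD_le (s := s) (z := z) hd
  have hsum0 : 0 ≤ ∑ n ∈ (selD s z).filter (fun n => d ∣ n), s.selbergTerms n := by
    apply Finset.sum_nonneg
    intro i hi
    exact selbergTerms_nonneg_of_mem (mem_filter.1 hi).1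
  have hmu : |(μ d : ℝ)| ≤ 1 := by
    exact_mod_cast abs_moebius_le_one
  rw [selW, abs_mul, abs_div, abs_of_nonneg hsum0, abs_of_pos (mul_pos hnu hS)]
  calc |(μ d : ℝ)| / (s.nu d * selS s z) * ∑ n ∈ (selD s z).filter (fun n => d ∣ n),
        s.selbergTerms n ≤ 1 / (s.nu d * selS s z) * (s.nu d * selS s z) := by
        gcongr
    _ = 1 := by
        rw [one_div, inv_mul_cancel₀ (mul_pos hnu hS).ne']

end general

/-- Sum of the absolute values of the weights. -/
lemma sum_abs_lam_le' (z : ℕ) (hz : 1 ≤ z) :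
    ∑ d ∈ (primorial z).divisors, |lam z d| ≤ (z : ℝ) ^ 2 := by
  have hP := primorial_ne_zero z
  have hcard : ((selD (s0 z) z).card : ℝ) ≤ z := by
    have : selD (s0 z) z ⊆ Finset.Icc 1 z := by
      intro d hd
      obtain ⟨a, b⟩ := mem_selD.1 hd
      exact Finset.mem_Icc.2 ⟨Nat.pos_of_ne_zero (ne_zero_of_dvd_ne_zero hP a), b⟩
    have := Finset.card_le_card this
    rw [Nat.card_Icc, Nat.add_sub_cancel] at this
    exact_mod_cast this
  have h0 : ∀ d ∈ (primorial z).divisors, |lam z d| ≤
      ∑ d1 ∈ selD (s0 z) z, ∑ d2 ∈ selD (s0 z) z,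
        if d = d1.lcm d2 then (1 : ℝ) else 0 := by
    intro d hd
    have hd' := (Nat.mem_divisors.1 hd).1
    have h1 : |lam z d| ≤ ∑ d1 ∈ d.divisors, ∑ d2 ∈ d.divisors,
        if d = d1.lcm d2 then |selW (s0 z) z d1| * |selW (s0 z) z d2| else 0 := by
      rw [lam, lambdaSquared]
      refine (Finset.abs_sum_le_sum_abs _ _).trans (Finset.sum_le_sum fun d1 _ => ?_)
      refine (Finset.abs_sum_le_sum_abs _ _).trans (Finset.sum_le_sum fun d2 _ => ?_)
      split_ifs
      · rw [abs_mul]
      · simp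
    refine h1.trans ?_
    have key : ∀ (f : ℕ → ℝ), (∀ x, 0 ≤ f x) → (∀ x, ¬ x ≤ z → f x = 0) →
        ∑ x ∈ d.divisors, f x ≤ ∑ x ∈ selD (s0 z) z, f x := by
      intro f hf hf0
      have : ∑ x ∈ d.divisors, f x = ∑ x ∈ d.divisors.filter (fun x => x ≤ z), f x := by
        rw [Finset.sum_filter]
        apply Finset.sum_congr rfl
        intro x _
        split_ifs with h
        · rfl
        · exact hf0 x h
      rw [this]
      apply Finset.sum_le_sum_of_subset_of_nonneg
      · intro x hx
        rw [mem_filter, Nat.mem_divisors] at hx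
        exact mem_selD.2 ⟨hx.1.1.trans hd', hx.2⟩
      · intro x _ _
        exact hf x
    have h2 : ∑ d1 ∈ d.divisors, ∑ d2 ∈ d.divisors,
        (if d = d1.lcm d2 then |selW (s0 z) z d1| * |selW (s0 z) z d2| else 0) ≤
        ∑ d1 ∈ selD (s0 z) z, ∑ d2 ∈ selD (s0 z) z,
        (if d = d1.lcm d2 then |selW (s0 z) z d1| * |selW (s0 z) z d2| else 0) := by
      refine (Finset.sum_le_sum fun d1 _ => key _ ?_ ?_).trans (key _ ?_ ?_)
      · intro x
        split_ifs
        · positivity
        · exact le_rfl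
      · intro x hx
        rw [selW_eq_zero hx]
        simp
      · intro x
        apply Finset.sum_nonneg
        intro y _
        split_ifs
        · positivity
        · exact le_rfl
      · intro x hx
        apply Finset.sum_eq_zero
        intro y _
        rw [selW_eq_zero hx]
        simp
    refine h2.trans ?_
    apply Finset.sum_le_sum
    intro d1 hd1
    apply Finset.sum_le_sum
    intro d2 hd2
    split_ifs
    · have g1 := abs_selW_le_one hz (mem_selD.1 hd1).1
      have g2 := abs_selW_le_one hz (mem_selD.1 hd2).1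
      calc |selW (s0 z) z d1| * |selW (s0 z) z d2| ≤ 1 * 1 :=
            mul_le_mul g1 g2 (abs_nonneg _) zero_le_one
        _ = 1 := one_mul 1
    · exact le_rfl
  refine (Finset.sum_le_sum h0).trans ?_
  rw [Finset.sum_comm]
  have h2 : ∀ d1 ∈ selD (s0 z) z, ∑ d ∈ (primorial z).divisors, ∑ d2 ∈ selD (s0 z) z,
      (if d = d1.lcm d2 then (1 : ℝ) else 0) ≤ z := by
    intro d1 hd1
    rw [Finset.sum_comm]
    calc ∑ d2 ∈ selD (s0 z) z, ∑ d ∈ (primorial z).divisors,
          (if d = d1.lcm d2 then (1 : ℝ) else 0)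
        ≤ ∑ _d2 ∈ selD (s0 z) z, (1 : ℝ) := by
          apply Finset.sum_le_sum
          intro d2 hd2
          rw [Finset.sum_ite_eq']
          split_ifs
          · exact le_rfl
          · exact zero_le_one
      _ = ((selD (s0 z) z).card : ℝ) := by rw [Finset.sum_const, nsmul_eq_mul, mul_one]
      _ ≤ z := hcard
  refine (Finset.sum_le_sum h2).trans ?_
  rw [Finset.sum_const, nsmul_eq_mul]
  calc ((selD (s0 z) z).card : ℝ) * (z : ℝ) ≤ z * z := by gcongr
    _ = (z : ℝ) ^ 2 := by ring

theorem class_sum' {z k : ℕ} (hz : 1 ≤ z) (hk : 0 < k) {r : ℕ} (hr : r < k)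
    (hrk : Nat.Coprime r k) (u L : ℕ) :
    |∑ n ∈ (Ico u (u + L)).filter (fun n => n % k = r), maj z n - (L : ℝ) / k * GG z k| ≤
      (z : ℝ) ^ 2 := by
  classical
  have e1 : ∑ n ∈ (Ico u (u + L)).filter (fun n => n % k = r), maj z n =
      ∑ d ∈ (primorial z).divisors,
        lam z d * (((Ico u (u + L)).filter (fun n => n % k = r ∧ d ∣ n)).card : ℝ) := by
    simp only [maj]
    rw [Finset.sum_comm]
    apply Finset.sum_congr rfl
    intro d _
    rw [← Finset.sum_filter, Finset.sum_const, nsmul_eq_mul, mul_comm, Finset.filter_filter]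
  have e2 : (L : ℝ) / k * GG z k = ∑ d ∈ (primorial z).divisors,
      (if Nat.Coprime d k then lam z d * ((L : ℝ) / k / d) else 0) := by
    rw [GG, Finset.mul_sum]
    apply Finset.sum_congr rfl
    intro d _
    split_ifs
    · ring
    · ring
  rw [e1, e2, ← Finset.sum_sub_distrib]
  refine (Finset.abs_sum_le_sum_abs _ _).trans ?_
  refine le_trans (Finset.sum_le_sum ?_) (sum_abs_lam_le' z hz)
  intro d hd
  have hd0 : 0 < d := Nat.pos_of_mem_divisors hd
  split_ifs with h
  · rw [← mul_sub, abs_mul]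
    have := card_crt hk hd0 h.symm hr u L
    calc |lam z d| * _ ≤ |lam z d| * 1 := mul_le_mul_of_nonneg_left this (abs_nonneg _)
      _ = |lam z d| := mul_one _
  · have e3 : (Ico u (u + L)).filter (fun n => n % k = r ∧ d ∣ n) = ∅ := by
      rw [Finset.filter_eq_empty_iff]
      rintro n _ ⟨h1, h2⟩
      apply h
      have h3 : Nat.Coprime n k := (coprime_mod_iff n k).1 (by rw [h1]; exact hrk)
      exact Nat.Coprime.coprime_dvd_left h2 h3
    rw [e3]
    simp

/-- Brun-Titchmarsh with the constant `2`, for primes exceeding the sieving level. -/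
theorem bt {z k : ℕ} (hz : 2 ≤ z) (hk : 0 < k) {r : ℕ} (hr : r < k)
    (hrk : Nat.Coprime r k) (u L : ℕ) :
    ((((Ico u (u + L)).filter (fun n => n % k = r)).filter
      (fun p => p.Prime ∧ z < p)).card : ℝ) ≤ (L : ℝ) / (k.totient * Real.log z) + (z : ℝ) ^ 2 := by
  have hz1 : 1 ≤ z := by omega
  have h0 : ((((Ico u (u + L)).filter (fun n => n % k = r)).filter
      (fun p => p.Prime ∧ z < p)).card : ℝ) ≤
      ∑ n ∈ (Ico u (u + L)).filter (fun n => n % k = r), maj z n := by
    rw [Finset.card_eq_sum_ones, Nat.cast_sum, Finset.sum_filter]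
    apply Finset.sum_le_sum
    intro n _
    split_ifs with h
    · push_cast
      exact one_le_maj_of_prime hz1 h.1 h.2
    · exact maj_nonneg z n hz1
  have h1 := (abs_le.1 (class_sum' hz1 hk hr hrk u L)).2
  have h2 := GG_le hz1 hk
  have hkr : (0 : ℝ) < k := by exact_mod_cast hk
  have hφ : (0 : ℝ) < k.totient := by exact_mod_cast Nat.totient_pos.2 hk
  have hS : 0 < selS (s0 z) z := selS_pos hz1
  have hlog : 0 < Real.log z := Real.log_pos (by exact_mod_cast (by omega : 1 < z))
  have hSl : Real.log z ≤ selS (s0 z) z := log_le_selS z hz1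
  have h3 : (L : ℝ) / k * GG z k ≤ (L : ℝ) / k * ((k : ℝ) / k.totient * (selS (s0 z) z)⁻¹) :=
    mul_le_mul_of_nonneg_left h2 (by positivity)
  have h4 : (L : ℝ) / k * ((k : ℝ) / k.totient * (selS (s0 z) z)⁻¹) =
      (L : ℝ) / (k.totient * selS (s0 z) z) := by
    field_simp
  have h5 : (L : ℝ) / (k.totient * selS (s0 z) z) ≤ (L : ℝ) / (k.totient * Real.log z) := by
    gcongr
  linarith

end

end Pool.Agent.Lib_helper72.HM
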