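import Mathlib
import Pool.Agent.Lib_helper70.PNT.PNT
import Pool.Agent.Lib_helper72.HM.Sieve

set_option autoImplicit false

/-!
The primes of a window `(x, (1 + η) x]` occupy almost half of the reduced residue classes of every
modulus `k ≤ x ^ τ`, and more than `B` of them are in each of these classes.
-/

namespace Pool.Agent.Lib_helper72.HM

open Finset Filter Topology

noncomputable section

/-- the primes of the window -/
def win (x η : ℝ) : Finset ℕ := (Ioc ⌊x⌋₊ ⌊(1 + η) * x⌋₊).filter Nat.Prime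

lemma mem_win {x η : ℝ} {p : ℕ} (hx : 0 ≤ (1 + η) * x) :
    p ∈ win x η ↔ p.Prime ∧ x < p ∧ (p : ℝ) ≤ (1 + η) * x := by
  rw [win, mem_filter, mem_Ioc]
  constructor
  · rintro ⟨⟨h1, h2⟩, h3⟩
    exact ⟨h3, (Nat.floor_lt' h3.ne_zero).1 h1, (Nat.le_floor_iff hx).1 h2⟩
  · rintro ⟨h3, h1, h2⟩
    exact ⟨⟨(Nat.floor_lt' h3.ne_zero).2 h1, (Nat.le_floor_iff hx).2 h2⟩, h3⟩

lemma theta_diff (x y : ℝ) (hxy : x ≤ y) :
    Chebyshev.theta y - Chebyshev.theta x =
      ∑ p ∈ (Ioc ⌊x⌋₊ ⌊y⌋₊).filter Nat.Prime, Real.log p := by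
  have hfl : ⌊x⌋₊ ≤ ⌊y⌋₊ := Nat.floor_le_floor hxy
  unfold Chebyshev.theta
  have e : (Ioc 0 ⌊y⌋₊).filter Nat.Prime = (Ioc 0 ⌊x⌋₊).filter Nat.Prime ∪
      (Ioc ⌊x⌋₊ ⌊y⌋₊).filter Nat.Prime := by
    rw [← Finset.filter_union, Finset.Ioc_union_Ioc_eq_Ioc (Nat.zero_le _) hfl]
  rw [e, Finset.sum_union]
  · ring
  · rw [Finset.disjoint_left]
    intro p hp hp2
    rw [mem_filter, mem_Ioc] at hp hp2
    omega

/-- The number of primes of the window, from the prime number theorem. -/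
lemma card_win_ge {η : ℝ} (hη : 0 < η) (hη1 : η ≤ 1) : ∀ᶠ x : ℝ in atTop,
    (1 - η) * (η * x) ≤ ((win x η).card : ℝ) * (Real.log x + 1) := by
  have h1 := H70PNT.theta_tendsto
  have hδ : (0 : ℝ) < η ^ 2 / 3 := by positivity
  have h2 : ∀ᶠ x : ℝ in atTop, |Chebyshev.theta x / x - 1| < η ^ 2 / 3 := by
    have := (Metric.tendsto_nhds.1 h1) (η ^ 2 / 3) hδ
    simpa only [Real.dist_eq] using this
  obtain ⟨x₁, hx₁⟩ := eventually_atTop.1 h2
  filter_upwards [eventually_ge_atTop x₁, eventually_ge_atTop 1] with x hx hx1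
  have hx0 : 0 < x := by linarith
  have hy0 : 0 < (1 + η) * x := by positivity
  have hxy : x ≤ (1 + η) * x := by nlinarith
  have g1 := abs_lt.1 (hx₁ x hx)
  have g2 := abs_lt.1 (hx₁ ((1 + η) * x) (hx.trans hxy))
  have g3 : Chebyshev.theta x < (1 + η ^ 2 / 3) * x := by
    have := g1.2
    rw [sub_lt_iff_lt_add, div_lt_iff₀ hx0] at this
    linarith
  have g4 : (1 - η ^ 2 / 3) * ((1 + η) * x) < Chebyshev.theta ((1 + η) * x) := by
    have := g2.1
    rw [lt_sub_iff_add_lt, lt_div_iff₀ hy0] at this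
    linarith
  have g5 := theta_diff x ((1 + η) * x) hxy
  have g6 : ∑ p ∈ (Ioc ⌊x⌋₊ ⌊(1 + η) * x⌋₊).filter Nat.Prime, Real.log p ≤
      ((win x η).card : ℝ) * (Real.log x + 1) := by
    rw [← nsmul_eq_mul, win]
    apply Finset.sum_le_card_nsmul
    intro p hp
    rw [mem_filter, mem_Ioc] at hp
    have h3 : (p : ℝ) ≤ (1 + η) * x := (Nat.le_floor_iff hy0.le).1 hp.1.2
    have h4 : (0 : ℝ) < p := by exact_mod_cast hp.2.pos
    calc Real.log p ≤ Real.log ((1 + η) * x) := Real.log_le_log h4 h3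
      _ = Real.log (1 + η) + Real.log x := Real.log_mul (by positivity) hx0.ne'
      _ ≤ η + Real.log x := by
          have := Real.log_le_sub_one_of_pos (show 0 < 1 + η by linarith)
          linarith
      _ ≤ Real.log x + 1 := by linarith
  rw [← g5] at g6
  refine le_trans ?_ g6
  nlinarith [mul_pos hη hx0, mul_pos (mul_pos hη hη) hx0]

/-- counting lemma -/
lemma count_classes (I : Finset ℕ) {k : ℕ} (hk : 0 < k) (hI : ∀ p ∈ I, Nat.Coprime p k) (B : ℕ)
    {Mx : ℝ} (hMx : ∀ r < k, Nat.Coprime r k → ((I.filter (fun p => p % k = r)).card : ℝ) ≤ Mx) :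
    (I.card : ℝ) ≤ (((range k).filter (fun r => Nat.Coprime r k ∧
      B < (I.filter (fun p => p % k = r)).card)).card : ℝ) * Mx + k.totient * B := by
  classical
  have h1 : I.card = ∑ r ∈ (range k).filter (fun r => Nat.Coprime r k),
      (I.filter (fun p => p % k = r)).card := by
    apply Finset.card_eq_sum_card_fiberwise
    intro p hp
    rw [Finset.mem_coe, mem_filter, mem_range]
    refine ⟨Nat.mod_lt _ hk, ?_⟩
    have h2 := hI p hp
    have h3 := Nat.ModEq.gcd_eq (Nat.mod_modEq p k)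
    rw [Nat.Coprime, h3]
    exact h2
  rw [h1]
  push_cast
  have h2 : ∀ r ∈ (range k).filter (fun r => Nat.Coprime r k),
      ((I.filter (fun p => p % k = r)).card : ℝ) ≤
        (if B < (I.filter (fun p => p % k = r)).card then Mx else 0) + B := by
    intro r hr
    rw [mem_filter, mem_range] at hr
    split_ifs with h
    · have := hMx r hr.1 hr.2
      have hB : (0 : ℝ) ≤ B := Nat.cast_nonneg _
      linarith
    · rw [zero_add]
      exact_mod_cast not_lt.1 h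
  refine (Finset.sum_le_sum h2).trans ?_
  rw [Finset.sum_add_distrib, ← Finset.sum_filter, Finset.sum_const, Finset.sum_const,
    Finset.filter_filter, nsmul_eq_mul, nsmul_eq_mul, Pool.Agent.Lib_helper72.AS.card_units_range]

/-- The primes of the window occupy almost half of the classes. -/
theorem occupancy {ε η : ℝ} (hη : 0 < η) (hηε : η ≤ ε) (hε1 : ε ≤ 1) : ∃ x₀ : ℝ, 1 ≤ x₀ ∧
    ∀ x : ℝ, x₀ ≤ x → ∀ k : ℕ, 0 < k → (k : ℝ) ≤ x ^ (ε / 16) →
      ∀ B : ℕ, (B : ℝ) ≤ x ^ (1 - 3 * (ε / 16)) →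
      (1 / 2 - ε) * k.totient ≤ (((range k).filter (fun r => Nat.Coprime r k ∧
        B < ((win x η).filter (fun p => p % k = r)).card)).card : ℝ) := by
  have hε : 0 < ε := by linarith
  by_cases hε2 : 1 / 2 < ε
  · refine ⟨1, le_rfl, fun x _ k _ _ B _ => ?_⟩
    have h1 : (1 / 2 - ε) * (k.totient : ℝ) ≤ 0 :=
      mul_nonpos_of_nonpos_of_nonneg (by linarith) (Nat.cast_nonneg _)
    exact h1.trans (Nat.cast_nonneg _)
  push Not at hε2
  obtain ⟨c, hc⟩ : ∃ c, c = ε / 16 := ⟨_, rfl⟩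
  have hc0 : 0 < c := by rw [hc]; positivity
  have hev : ∀ a : ℝ, 0 < a → ∀ᶠ x : ℝ in atTop, x ^ (1 - a) * Real.log x ≤ c * (η * x) := by
    intro a ha
    have h1 := (isLittleO_log_rpow_atTop ha).bound (show 0 < c * η by positivity)
    filter_upwards [h1, eventually_ge_atTop 1] with x hx hx1
    have hx0 : 0 < x := by linarith
    rw [Real.norm_of_nonneg (Real.log_nonneg hx1), Real.norm_of_nonneg (by positivity)] at hx
    calc x ^ (1 - a) * Real.log x ≤ x ^ (1 - a) * (c * η * x ^ a) := by gcongr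
      _ = c * η * (x ^ (1 - a) * x ^ a) := by ring
      _ = c * (η * x) := by
          rw [← Real.rpow_add hx0, sub_add_cancel, Real.rpow_one]
          ring
  have hlog := Real.tendsto_log_atTop
  have hall := (card_win_ge hη (by linarith)).and ((hev (2 * c) (by positivity)).and
    ((hlog.eventually_ge_atTop (1 / c)).and
      ((eventually_ge_atTop 4).and ((eventually_ge_atTop (1 / (c * η))).and
      (hlog.eventually_ge_atTop (Real.log 2 / (c / 2)))))))
  obtain ⟨x₀, hx₀⟩ := eventually_atTop.1 hall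
  refine ⟨max x₀ 1, le_max_right _ _, fun x hx k hk hkx B hBx => ?_⟩
  obtain ⟨e1, e2, e4, e5, e6, e7⟩ := hx₀ x ((le_max_left _ _).trans hx)
  rw [← hc] at hkx hBx
  obtain ⟨Λ, hΛ⟩ : ∃ Λ, Λ = Real.log x := ⟨_, rfl⟩
  rw [← hΛ] at e1 e2 e4 e7
  have hx0 : 0 < x := by linarith
  have hx1 : 1 ≤ x := by linarith
  have hΛ0 : 0 < Λ := lt_of_lt_of_le (by positivity) e4
  have hcΛ : 1 ≤ c * Λ := by
    rw [div_le_iff₀ hc0] at e4
    linarith
  -- the level of the sieve
  obtain ⟨z, hz⟩ : ∃ z : ℕ, z = ⌊x ^ ((1 - 3 * c) / 2)⌋₊ := ⟨_, rfl⟩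
  have hzpos : 0 < x ^ ((1 - 3 * c) / 2) := Real.rpow_pos_of_pos hx0 _
  have hz1 : (z : ℝ) ≤ x ^ ((1 - 3 * c) / 2) := by
    rw [hz]
    exact Nat.floor_le hzpos.le
  have hexpL : x = Real.exp Λ := by rw [hΛ, Real.exp_log hx0]
  have hc16 : c ≤ 1 / 32 := by rw [hc]; linarith
  have hlog2 : Real.log 2 ≤ c / 2 * Λ := by
    rw [div_le_iff₀ (by positivity)] at e7
    linarith
  have hzlow : x ^ ((1 - 4 * c) / 2) ≤ z := by
    have h1 : 2 * x ^ ((1 - 4 * c) / 2) ≤ x ^ ((1 - 3 * c) / 2) := by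
      have h2 : (2 : ℝ) ≤ x ^ (c / 2) := by
        rw [Real.rpow_def_of_pos hx0, ← hΛ]
        calc (2 : ℝ) = Real.exp (Real.log 2) := (Real.exp_log (by norm_num)).symm
          _ ≤ _ := Real.exp_le_exp.2 (by linarith)
      calc 2 * x ^ ((1 - 4 * c) / 2) ≤ x ^ (c / 2) * x ^ ((1 - 4 * c) / 2) := by gcongr
        _ = x ^ ((1 - 3 * c) / 2) := by
            rw [← Real.rpow_add hx0]
            congr 1
            ring
    have h3 : x ^ ((1 - 3 * c) / 2) < z + 1 := by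
      rw [hz]
      exact Nat.lt_floor_add_one _
    have h4 : (1 : ℝ) ≤ x ^ ((1 - 4 * c) / 2) := Real.one_le_rpow hx1 (by linarith)
    linarith
  have hlogz : (1 - 4 * c) / 2 * Λ ≤ Real.log z := by
    have h1 := Real.log_le_log (Real.rpow_pos_of_pos hx0 _) hzlow
    rwa [Real.log_rpow hx0, ← hΛ] at h1
  have hlogz0 : 0 < (1 - 4 * c) / 2 * Λ := by
    have : 0 < (1 - 4 * c) / 2 := by linarith
    positivity
  have hz2 : 2 ≤ z := by
    by_contra h
    push Not at h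
    have h1 : (z : ℝ) ≤ 1 := by exact_mod_cast (by omega : z ≤ 1)
    have h2 : Real.log z ≤ 0 := Real.log_nonpos (Nat.cast_nonneg _) h1
    linarith
  have hzsq : (z : ℝ) ^ 2 ≤ x ^ (1 - 3 * c) := by
    calc (z : ℝ) ^ 2 ≤ (x ^ ((1 - 3 * c) / 2)) ^ 2 := by gcongr
      _ = x ^ (1 - 3 * c) := by
          rw [← Real.rpow_natCast, ← Real.rpow_mul hx0.le]
          congr 1
          push_cast
          ring
  have hzx : (z : ℝ) ≤ x := by
    refine hz1.trans ?_
    calc x ^ ((1 - 3 * c) / 2) ≤ x ^ (1 : ℝ) := Real.rpow_le_rpow_of_exponent_le hx1 (by linarith)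
      _ = x := Real.rpow_one x
  have hkx1 : (k : ℝ) ≤ x := by
    refine hkx.trans ?_
    calc x ^ c ≤ x ^ (1 : ℝ) := Real.rpow_le_rpow_of_exponent_le hx1 (by linarith)
      _ = x := Real.rpow_one x
  -- coprimality
  have hy0 : 0 ≤ (1 + η) * x := by positivity
  have hI : ∀ p ∈ win x η, Nat.Coprime p k := by
    intro p hp
    rw [mem_win hy0] at hp
    rw [Nat.Prime.coprime_iff_not_dvd hp.1]
    intro h
    have h1 : (p : ℝ) ≤ k := by exact_mod_cast Nat.le_of_dvd hk h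
    linarith [hp.2.1]
  -- upper bound for every class
  have hφ : (0 : ℝ) < k.totient := by exact_mod_cast Nat.totient_pos.2 hk
  have hφk : (k.totient : ℝ) ≤ k := by exact_mod_cast Nat.totient_le k
  have hMx : ∀ r < k, Nat.Coprime r k → (((win x η).filter (fun p => p % k = r)).card : ℝ) ≤
      (η * x + 1) / (k.totient * ((1 - 4 * c) / 2 * Λ)) + x ^ (1 - 3 * c) := by
    intro r hr hrk
    have h1 := bt hz2 hk hr hrk (⌊x⌋₊ + 1) (⌊(1 + η) * x⌋₊ - ⌊x⌋₊)
    have h2 : ((win x η).filter (fun p => p % k = r)).card ≤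
        ((((Ico (⌊x⌋₊ + 1) (⌊x⌋₊ + 1 + (⌊(1 + η) * x⌋₊ - ⌊x⌋₊))).filter
          (fun n => n % k = r)).filter (fun p => p.Prime ∧ z < p)).card) := by
      apply Finset.card_le_card
      intro p hp
      rw [mem_filter, win, mem_filter, mem_Ioc] at hp
      obtain ⟨⟨⟨a1, a2⟩, a3⟩, a4⟩ := hp
      rw [mem_filter, mem_filter, mem_Ico]
      refine ⟨⟨⟨by omega, by omega⟩, a4⟩, a3, ?_⟩
      have h3 : z ≤ ⌊x⌋₊ := Nat.le_floor hzx
      omega
    have h3 : (((win x η).filter (fun p => p % k = r)).card : ℝ) ≤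
        ((⌊(1 + η) * x⌋₊ - ⌊x⌋₊ : ℕ) : ℝ) / (k.totient * Real.log z) + (z : ℝ) ^ 2 :=
      le_trans (by exact_mod_cast h2) h1
    have hfl : ⌊x⌋₊ ≤ ⌊(1 + η) * x⌋₊ := Nat.floor_le_floor (by nlinarith)
    have h4 : ((⌊(1 + η) * x⌋₊ - ⌊x⌋₊ : ℕ) : ℝ) ≤ η * x + 1 := by
      rw [Nat.cast_sub hfl]
      have h5 := Nat.floor_le hy0
      have h6 := Nat.lt_floor_add_one x
      linarith
    refine h3.trans (add_le_add ?_ hzsq)
    gcongr
  have hcount := count_classes (win x η) hk hI B hMx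
  set 𝓑 := (range k).filter (fun r => Nat.Coprime r k ∧
        B < ((win x η).filter (fun p => p % k = r)).card) with h𝓑
  -- arithmetic
  have hk2 : (k.totient : ℝ) * B ≤ x ^ (1 - 2 * c) := by
    calc (k.totient : ℝ) * B ≤ x ^ c * x ^ (1 - 3 * c) := by
          have := hφk.trans hkx
          gcongr
      _ = x ^ (1 - 2 * c) := by rw [← Real.rpow_add hx0]; congr 1; ring
  have hk3 : (k.totient : ℝ) * x ^ (1 - 3 * c) ≤ x ^ (1 - 2 * c) := by
    calc (k.totient : ℝ) * x ^ (1 - 3 * c) ≤ x ^ c * x ^ (1 - 3 * c) := by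
          have := hφk.trans hkx
          gcongr
      _ = x ^ (1 - 2 * c) := by rw [← Real.rpow_add hx0]; congr 1; ring
  by_contra hcon
  push Not at hcon
  have h12 : 0 ≤ 1 / 2 - ε := by linarith
  have hMx0 : 0 ≤ (η * x + 1) / (k.totient * ((1 - 4 * c) / 2 * Λ)) + x ^ (1 - 3 * c) := by
    positivity
  have hup : ((win x η).card : ℝ) ≤ (1 / 2 - ε) * ((η * x + 1) / ((1 - 4 * c) / 2 * Λ) +
      x ^ (1 - 2 * c)) + x ^ (1 - 2 * c) := by
    refine hcount.trans (add_le_add ?_ hk2)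
    calc (𝓑.card : ℝ) * ((η * x + 1) / (k.totient * ((1 - 4 * c) / 2 * Λ)) + x ^ (1 - 3 * c)) ≤
          ((1 / 2 - ε) * k.totient) *
            ((η * x + 1) / (k.totient * ((1 - 4 * c) / 2 * Λ)) + x ^ (1 - 3 * c)) := by
          exact mul_le_mul_of_nonneg_right hcon.le hMx0
      _ = (1 / 2 - ε) * ((η * x + 1) / ((1 - 4 * c) / 2 * Λ) +
            k.totient * x ^ (1 - 3 * c)) := by
          field_simp
      _ ≤ _ := by gcongr
  -- multiply by `Λ`
  have hcη : 1 ≤ c * (η * x) := by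
    rw [div_le_iff₀ (by positivity)] at e6
    linarith
  have hA : (0 : ℝ) < 1 - 4 * c := by linarith
  have key : ∀ P : ℝ, P / ((1 - 4 * c) / 2 * Λ) * Λ = P * (2 / (1 - 4 * c)) := by
    intro P
    have hA' : (1 - 4 * c) ≠ 0 := hA.ne'
    have hΛ' : Λ ≠ 0 := hΛ0.ne'
    field_simp
  have hupΛ : ((win x η).card : ℝ) * Λ ≤ (1 / 2 - ε) * ((1 + c) * (η * x) * (2 / (1 - 4 * c)) +
      c * (η * x)) + c * (η * x) := by
    calc ((win x η).card : ℝ) * Λ ≤ ((1 / 2 - ε) * ((η * x + 1) / ((1 - 4 * c) / 2 * Λ) +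
      x ^ (1 - 2 * c)) + x ^ (1 - 2 * c)) * Λ := by gcongr
      _ = (1 / 2 - ε) * ((η * x + 1) / ((1 - 4 * c) / 2 * Λ) * Λ + x ^ (1 - 2 * c) * Λ) +
          x ^ (1 - 2 * c) * Λ := by
          ring
      _ = (1 / 2 - ε) * ((η * x + 1) * (2 / (1 - 4 * c)) + x ^ (1 - 2 * c) * Λ) +
          x ^ (1 - 2 * c) * Λ := by
          rw [key]
      _ ≤ (1 / 2 - ε) * ((η * x + c * (η * x)) * (2 / (1 - 4 * c)) + c * (η * x)) +
          c * (η * x) := by gcongr
      _ = _ := by ring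
  have hlowΛ : (1 - c) * ((1 - η) * (η * x)) ≤ ((win x η).card : ℝ) * Λ := by
    have h1 : (1 - c) * (Λ + 1) ≤ Λ := by nlinarith
    calc (1 - c) * ((1 - η) * (η * x)) ≤ (1 - c) * (((win x η).card : ℝ) * (Λ + 1)) := by
          apply mul_le_mul_of_nonneg_left e1
          linarith
      _ = ((win x η).card : ℝ) * ((1 - c) * (Λ + 1)) := by ring
      _ ≤ _ := mul_le_mul_of_nonneg_left h1 (Nat.cast_nonneg _)
  have hcomb := hlowΛ.trans hupΛ
  have hηx : 0 < η * x := by positivity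
  have hcomb2 : (1 - c) * (1 - η) ≤ (1 / 2 - ε) * ((1 + c) * (2 / (1 - 4 * c)) + c) + c := by
    have : (1 - c) * (1 - η) * (η * x) ≤
        ((1 / 2 - ε) * ((1 + c) * (2 / (1 - 4 * c)) + c) + c) * (η * x) := by
      calc (1 - c) * (1 - η) * (η * x) = (1 - c) * ((1 - η) * (η * x)) := by ring
        _ ≤ _ := hcomb
        _ = _ := by ring
    exact le_of_mul_le_mul_right this hηx
  have h5 : (1 + c) * (2 / (1 - 4 * c)) ≤ 2 * (1 + ε / 2) := by
    rw [mul_div_assoc', div_le_iff₀ hA, hc]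
    nlinarith
  have h6 : (1 / 2 - ε) * ((1 + c) * (2 / (1 - 4 * c)) + c) ≤
      (1 / 2 - ε) * (2 * (1 + ε / 2) + c) := by gcongr
  have h7 : (1 - c) * (1 - ε) ≤ (1 - c) * (1 - η) := by
    apply mul_le_mul_of_nonneg_left
    · linarith
    · linarith
  rw [hc] at h6 h7 hcomb2
  nlinarith

end

end Pool.Agent.Lib_helper72.HM
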