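import Mathlib
import Pool.Agent.Lib_helper72.HM.Window
import Pool.Agent.Lib_helper72.HM.Count

set_option autoImplicit false

/-!
For half of the moduli `m` there are `m ^ (1 - ε)` residues `c` for which the least prime of the
class is within a factor `1 + ε` of `t φ(m) log m`.
-/

namespace Pool.Agent.Lib_helper72.HM

open Finset Filter BlockSieve Pool.Agent.Lib_helper72.AP Pool.Agent.Lib_helper72.AS
  Pool.Agent.Lib_helper72.LP

noncomputable section

/-- A prime which is the least one of its class. -/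
lemma least_prime {m p Y T α : ℕ} {Q : Finset ℕ} (hQ : ∀ l ∈ Q, l.Prime ∧ l ≤ Y)
    (hpα : ∀ l ∈ Q, p ≡ α * m [MOD l])
    (hcov : ∀ n, 1 ≤ n → n ≤ T → ∃ l ∈ Q, n ≡ α [MOD l]) (hm : 0 < m) (hT : p / m ≤ T)
    (hY : Y < p % m) : ∀ q : ℕ, q.Prime → q ≡ p [MOD m] → p ≤ q := by
  intro q hq hqp
  by_contra hlt
  push Not at hlt
  have h1 : m ∣ p - q := (Nat.modEq_iff_dvd' hlt.le).1 hqp
  obtain ⟨n, hn⟩ := h1
  have hpq : p = q + m * n := by omega
  have hn1 : 1 ≤ n := by
    rcases Nat.eq_zero_or_pos n with h | h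
    · rw [h] at hpq
      omega
    · exact h
  have hnT : n ≤ T := by
    refine le_trans ?_ hT
    rw [Nat.le_div_iff_mul_le hm]
    rw [mul_comm]
    omega
  obtain ⟨l, hl, hlα⟩ := hcov n hn1 hnT
  have h2 : q + m * n ≡ 0 + m * n [MOD l] := by
    rw [← hpq, zero_add]
    have h3 := hlα.symm.mul_right m
    rw [mul_comm n m] at h3
    exact (hpα l hl).trans h3
  have h3 : q ≡ 0 [MOD l] := Nat.ModEq.add_right_cancel' _ h2
  have h4 : l ∣ q := Nat.modEq_zero_iff_dvd.1 h3
  have h5 : l = q := (Nat.prime_dvd_prime_iff_eq (hQ l hl).1 hq).1 h4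
  have h6 : p % m ≤ q := by
    have h7 : q % m = p % m := hqp
    rw [← h7]
    exact Nat.mod_le _ _
  have := (hQ l hl).2
  omega

/-- few elements with a small residue -/
lemma card_small_residue {m K Y : ℕ} (I : Finset ℕ) (hI : ∀ p ∈ I, p / m ≤ K) :
    (I.filter (fun p => p % m ≤ Y)).card ≤ (K + 1) * (Y + 1) := by
  have h1 : (I.filter (fun p => p % m ≤ Y)).card ≤
      (range (K + 1) ×ˢ range (Y + 1)).card := by
    apply Finset.card_le_card_of_injOn (fun p => (p / m, p % m))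
    · intro p hp
      rw [Finset.mem_coe, mem_filter] at hp
      rw [Finset.mem_coe, mem_product, mem_range, mem_range]
      have := hI p hp.1
      exact ⟨by simp only; omega, by simp only; omega⟩
    · intro p _ p' _ h
      simp only [Prod.mk.injEq] at h
      rw [← Nat.div_add_mod p m, ← Nat.div_add_mod p' m, h.1, h.2]
  rwa [card_product, card_range, card_range] at h1

open scoped Classical in
/-- The classes whose least prime is in the window. -/
lemma many_classes {m Y T α K B W : ℕ} {Q I : Finset ℕ} (hQ : ∀ l ∈ Q, l.Prime ∧ l ≤ Y ∧ l ∣ W)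
    (hcov : ∀ n, 1 ≤ n → n ≤ T → ∃ l ∈ Q, n ≡ α [MOD l]) (hm : 0 < m)
    (hI : ∀ p ∈ I, p.Prime ∧ m < p ∧ p / m ≤ T ∧ p / m ≤ K) {s : ℕ} (hs : (α * m) % W = s)
    (hB : B < (I.filter (fun p => p % W = s)).card) :
    B < ((range m).filter (fun c => Nat.Coprime c m ∧ ∃ p ∈ I, p ≡ c [MOD m] ∧
      ∀ q : ℕ, q.Prime → q ≡ c [MOD m] → p ≤ q)).card + (K + 1) * (Y + 1) := by
  set J := I.filter (fun p => p % W = s) with hJ
  have h1 : (J.filter (fun p => p % m ≤ Y)).card ≤ (K + 1) * (Y + 1) :=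
    card_small_residue J (fun p hp => (hI p (mem_filter.1 hp).1).2.2.2)
  have h2 := Finset.card_filter_add_card_filter_not (s := J) (fun p => p % m ≤ Y)
  have h3 : (J.filter (fun p => ¬ p % m ≤ Y)).card ≤
      ((range m).filter (fun c => Nat.Coprime c m ∧ ∃ p ∈ I, p ≡ c [MOD m] ∧
      ∀ q : ℕ, q.Prime → q ≡ c [MOD m] → p ≤ q)).card := by
    have key : ∀ p ∈ J.filter (fun p => ¬ p % m ≤ Y), ∀ q : ℕ, q.Prime → q ≡ p [MOD m] →
        p ≤ q := by
      intro p hp
      rw [mem_filter, hJ, mem_filter] at hp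
      obtain ⟨⟨hpI, hpW⟩, hpY⟩ := hp
      obtain ⟨a1, a2, a3, a4⟩ := hI p hpI
      refine least_prime (Y := Y) (T := T) (α := α) (Q := Q) (fun l hl => ⟨(hQ l hl).1,
        (hQ l hl).2.1⟩) ?_ hcov hm a3 (by omega)
      intro l hl
      have h4 : p ≡ α * m [MOD W] := by
        unfold Nat.ModEq
        rw [hpW, hs]
      exact h4.of_dvd (hQ l hl).2.2
    apply Finset.card_le_card_of_injOn (fun p => p % m)
    · intro p hp
      have hpk := key p (by exact_mod_cast hp)
      rw [Finset.mem_coe, mem_filter, hJ, mem_filter] at hp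
      obtain ⟨⟨hpI, hpW⟩, hpY⟩ := hp
      obtain ⟨a1, a2, a3, a4⟩ := hI p hpI
      rw [Finset.mem_coe, mem_filter, mem_range]
      refine ⟨Nat.mod_lt _ hm, ?_, p, hpI, (Nat.mod_modEq p m).symm, ?_⟩
      · have h5 : Nat.gcd (p % m) m = Nat.gcd p m := Nat.ModEq.gcd_eq (Nat.mod_modEq p m)
        rw [Nat.Coprime, h5]
        have h6 : Nat.Coprime p m := by
          rw [Nat.Prime.coprime_iff_not_dvd a1]
          intro h
          have := Nat.le_of_dvd hm h
          omega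
        exact h6
      · intro q hq hqp
        exact hpk q hq (hqp.trans (Nat.mod_modEq p m))
    · intro p hp p' hp' h
      have hpk := key p (by exact_mod_cast hp)
      have hpk' := key p' (by exact_mod_cast hp')
      rw [Finset.mem_coe, mem_filter, hJ, mem_filter] at hp hp'
      have h4 : p ≡ p' [MOD m] := h
      exact le_antisymm (hpk p' (hI p' hp'.1.1).1 h4.symm) (hpk' p (hI p hp.1.1).1 h4)
  omega

lemma many_classes' {m Y T α K B W : ℕ} {Q I : Finset ℕ} (hQ : ∀ l ∈ Q, l.Prime ∧ l ≤ Y ∧ l ∣ W)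
    (hcov : ∀ n, 1 ≤ n → n ≤ T → ∃ l ∈ Q, n ≡ α [MOD l]) (hm : 0 < m)
    (hI : ∀ p ∈ I, p.Prime ∧ m < p ∧ p / m ≤ T ∧ p / m ≤ K) {s : ℕ} (hs : (α * m) % W = s)
    (hB : B < (I.filter (fun p => p % W = s)).card) :
    ∃ 𝒞 : Finset ℕ, B < 𝒞.card + (K + 1) * (Y + 1) ∧ ∀ c ∈ 𝒞, c < m ∧ Nat.Coprime c m ∧
      ∃ p ∈ I, p ≡ c [MOD m] ∧ ∀ q : ℕ, q.Prime → q ≡ c [MOD m] → p ≤ q := by
  classical
  refine ⟨_, many_classes hQ hcov hm hI hs hB, ?_⟩
  intro c hc
  rw [mem_filter, mem_range] at hc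
  exact hc

/-- The ratio `φ(m) / m` and the small primes. -/
lemma totient_bounds {m Y : ℕ} (hm : 0 < m) (hY : 2 ≤ Y) :
    (m.totient : ℝ) ≤ (∏ l ∈ sp Y m, (1 - (1 : ℝ) / l)) * m ∧
    (1 - Real.log m / (Y * Real.log Y)) * ((∏ l ∈ sp Y m, (1 - (1 : ℝ) / l)) * m) ≤
      m.totient := by
  classical
  have hmr : (0 : ℝ) < m := by exact_mod_cast hm
  have hYr : (2 : ℝ) ≤ Y := by exact_mod_cast hY
  have hlogY : 0 < Real.log Y := Real.log_pos (by linarith)
  have h5 := totient_div_eq hm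
  rw [div_eq_iff hmr.ne'] at h5
  have hsp : sp Y m = m.primeFactors.filter (fun l => l ≤ Y) := by
    ext l
    rw [sp, mem_filter, mem_filter, mem_pr, Nat.mem_primeFactors]
    constructor
    · rintro ⟨⟨a, b⟩, c⟩
      exact ⟨⟨a, c, hm.ne'⟩, b⟩
    · rintro ⟨⟨a, b, _⟩, c⟩
      exact ⟨⟨a, c⟩, b⟩
  have hpf : ∀ l ∈ m.primeFactors, l.Prime := fun l hl => Nat.prime_of_mem_primeFactors hl
  constructor
  · rw [h5]
    apply mul_le_mul_of_nonneg_right _ hmr.le
    apply prod_subset_ge hpf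
    rw [hsp]
    exact Finset.filter_subset _ _
  · set S' := m.primeFactors.filter (fun l => ¬ l ≤ Y) with hS'
    have hcard : (S'.card : ℝ) * Real.log Y ≤ Real.log m := by
      have h1 : ∏ l ∈ S', l ≤ m := by
        apply Nat.le_of_dvd hm
        exact (Finset.prod_dvd_prod_of_subset _ _ _ (Finset.filter_subset _ _)).trans
          (Nat.prod_primeFactors_dvd m)
      have h2 : Y ^ S'.card ≤ ∏ l ∈ S', l := by
        rw [← Finset.prod_const]
        apply Finset.prod_le_prod'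
        intro l hl
        have := (mem_filter.1 hl).2
        omega
      have h3 : ((Y : ℝ)) ^ S'.card ≤ m := by exact_mod_cast h2.trans h1
      have h4 := Real.log_le_log (by positivity) h3
      rwa [Real.log_pow] at h4
    have hsum : 1 - ∑ l ∈ S', (1 : ℝ) / l ≤ ∏ l ∈ S', (1 - (1 : ℝ) / l) := by
      apply one_sub_sum_le S' (fun l : ℕ => (1 : ℝ) / l) (fun l hl => by positivity)
      intro l hl
      have : (1 : ℝ) ≤ l := by exact_mod_cast (hpf l (mem_filter.1 hl).1).one_le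
      rw [div_le_one (by linarith)]
      exact this
    have hsum2 : ∑ l ∈ S', (1 : ℝ) / l ≤ S'.card * (1 / Y) := by
      rw [← nsmul_eq_mul, ← Finset.sum_const]
      apply Finset.sum_le_sum
      intro l hl
      have h1 := (mem_filter.1 hl).2
      apply one_div_le_one_div_of_le (by linarith)
      exact_mod_cast (not_le.1 h1).le
    have hsum3 : (S'.card : ℝ) * (1 / Y) ≤ Real.log m / (Y * Real.log Y) := by
      rw [mul_one_div, div_le_div_iff₀ (by linarith) (by positivity)]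
      calc (S'.card : ℝ) * (Y * Real.log Y) = Y * (S'.card * Real.log Y) := by ring
        _ ≤ Y * Real.log m := by gcongr
        _ = _ := by ring
    have hprod : ∏ l ∈ m.primeFactors, (1 - (1 : ℝ) / l) =
        (∏ l ∈ sp Y m, (1 - (1 : ℝ) / l)) * ∏ l ∈ S', (1 - (1 : ℝ) / l) := by
      rw [hsp, hS']
      exact (Finset.prod_filter_mul_prod_filter_not _ _ _).symm
    rw [h5, hprod]
    have h6 : 0 ≤ ∏ l ∈ sp Y m, (1 - (1 : ℝ) / l) :=
      Finset.prod_nonneg fun l hl => (one_sub_inv_mem (pr_prime (sp_sub m hl))).1.le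
    have h7 : 1 - Real.log m / (Y * Real.log Y) ≤ ∏ l ∈ S', (1 - (1 : ℝ) / l) := by linarith
    calc (1 - Real.log m / (Y * Real.log Y)) * ((∏ l ∈ sp Y m, (1 - (1 : ℝ) / l)) * m) ≤
          (∏ l ∈ S', (1 - (1 : ℝ) / l)) * ((∏ l ∈ sp Y m, (1 - (1 : ℝ) / l)) * m) := by
          gcongr
      _ = _ := by ring

lemma WM_bounds {M : ℕ} (h : 60 ≤ Real.log (Real.log M)) : 0 ≤ WM M ∧ WM M ≤ Real.log M ^ 2 := by
  obtain ⟨L, hL⟩ : ∃ L, L = Real.log (M : ℝ) := ⟨_, rfl⟩
  obtain ⟨w, hw⟩ : ∃ w, w = Real.log L := ⟨_, rfl⟩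
  obtain ⟨v, hv⟩ : ∃ v, v = Real.log w := ⟨_, rfl⟩
  obtain ⟨q, hq⟩ : ∃ q, q = Real.log v := ⟨_, rfl⟩
  have hWM : WM M = L * w * q / v ^ 2 := by
    rw [WM, hq, hv, hw, hL]
  rw [← hL, ← hw] at h
  have hL0 : 0 < L := by
    have hL0' : 0 ≤ L := by
      rw [hL]
      exact Real.log_natCast_nonneg M
    rcases hL0'.lt_or_eq with h1 | h1
    · exact h1
    · rw [← h1, Real.log_zero] at hw
      linarith
  have hwL : w ≤ L := by
    rw [hw]
    have := Real.log_le_sub_one_of_pos hL0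
    linarith
  have hv1 : 1 ≤ v := by
    rw [hv, Real.le_log_iff_exp_le (by linarith)]
    have := Real.exp_one_lt_d9
    linarith
  have hv0 : 0 < v := by linarith
  have hqv : q ≤ v := by
    rw [hq]
    have := Real.log_le_sub_one_of_pos hv0
    linarith
  have hq0 : 0 ≤ q := by
    rw [hq]
    exact Real.log_nonneg hv1
  have hw0 : 0 < w := by linarith
  rw [← hL]
  constructor
  · rw [hWM]
    positivity
  · rw [hWM, div_le_iff₀ (by positivity)]
    calc L * w * q ≤ L * L * (v * v) := by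
          gcongr
          nlinarith
      _ = L ^ 2 * v ^ 2 := by ring

end

end Pool.Agent.Lib_helper72.HM
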