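import Mathlib
import Pool.Agent.Lib_helper72.HM.Final

set_option autoImplicit false

/-!
For half of the moduli `m` there are `m ^ (1 - ε)` residues `c` for which the least prime of the
class is within a factor `1 + ε` of `t φ(m) log m`: assembly.
-/

namespace Pool.Agent.Lib_helper72.HM

open Finset Filter BlockSieve Pool.Agent.Lib_helper72.AP Pool.Agent.Lib_helper72.AS
  Pool.Agent.Lib_helper72.LP

noncomputable section

lemma size_facts {ε t N m L ρ φ p lm : ℝ} (hε : 0 < ε) (hε1 : ε ≤ 1) (ht : 0 < t) (hN : 0 < N)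
    (hL : 0 < L) (hρ : 0 < ρ) (hp1 : t * N * ρ * L < p) (hp2 : p ≤ (1 + ε / 8) * (t * N * ρ * L))
    (hm1 : N ≤ m) (hm2 : m ≤ (1 + ε) * N) (hl1 : L ≤ lm) (hl2 : lm ≤ (1 + ε ^ 2 / 8) * L)
    (hφ1 : (1 - ε ^ 2 / 8) * (ρ * m) ≤ φ) (hφ2 : φ ≤ ρ * m) :
    (1 - ε) * (t * φ * lm) ≤ p ∧ p ≤ (1 + ε) * (t * φ * lm) := by
  have hm0 : 0 < m := by linarith
  have hlm : 0 < lm := by linarith
  have hε2 : ε ^ 2 ≤ ε := by nlinarith
  have h1e : 0 < 1 - ε ^ 2 / 8 := by linarith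
  constructor
  · refine le_trans ?_ hp1.le
    have h1 : t * φ * lm ≤ (1 + ε) * (1 + ε ^ 2 / 8) * (t * N * ρ * L) := by
      calc t * φ * lm ≤ t * (ρ * ((1 + ε) * N)) * ((1 + ε ^ 2 / 8) * L) := by
            have : φ ≤ ρ * ((1 + ε) * N) := hφ2.trans (by gcongr)
            gcongr
        _ = _ := by ring
    have h2 : 0 < t * N * ρ * L := by positivity
    calc (1 - ε) * (t * φ * lm) ≤ (1 - ε) * ((1 + ε) * (1 + ε ^ 2 / 8) * (t * N * ρ * L)) := by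
          apply mul_le_mul_of_nonneg_left h1
          linarith
      _ = ((1 - ε ^ 2) * (1 + ε ^ 2 / 8)) * (t * N * ρ * L) := by ring
      _ ≤ 1 * (t * N * ρ * L) := by
          apply mul_le_mul_of_nonneg_right _ h2.le
          nlinarith [sq_nonneg ε, sq_nonneg (ε ^ 2)]
      _ = _ := one_mul _
  · refine hp2.trans ?_
    have h2 : 0 < t * N * ρ * L := by positivity
    have h1 : (1 - ε ^ 2 / 8) * (t * N * ρ * L) ≤ t * φ * lm := by
      calc (1 - ε ^ 2 / 8) * (t * N * ρ * L) = t * ((1 - ε ^ 2 / 8) * (ρ * N)) * L := by ring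
        _ ≤ t * ((1 - ε ^ 2 / 8) * (ρ * m)) * lm := by gcongr
        _ ≤ _ := by gcongr
    calc (1 + ε / 8) * (t * N * ρ * L) ≤ ((1 + ε) * (1 - ε ^ 2 / 8)) * (t * N * ρ * L) := by
          apply mul_le_mul_of_nonneg_right _ h2.le
          nlinarith
      _ = (1 + ε) * ((1 - ε ^ 2 / 8) * (t * N * ρ * L)) := by ring
      _ ≤ _ := by gcongr

/-- The parameters. -/
lemma param_facts {ε : ℝ} (hε : 0 < ε) {A N y : ℕ} {L : ℝ} (hA : 512 / ε ≤ A) (hL0 : 0 < L)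
    (hy : y = ⌊L / (3 * ((A : ℝ) + 5))⌋₊) (hy1 : L / (4 * ((A : ℝ) + 5)) ≤ y) :
    (((8 * y : ℕ) : ℝ)) ≤ L ∧ 2 / ((A : ℝ) + 5) * L ≤ ((8 * y : ℕ) : ℝ) ∧
      ((PP (8 * y) : ℕ) : ℝ) ≤ Real.exp (ε / 128 * L) := by
  have hAr : (0 : ℝ) ≤ A := Nat.cast_nonneg _
  have hA5 : (0 : ℝ) < (A : ℝ) + 5 := by linarith
  have hy2 : (y : ℝ) ≤ L / (3 * ((A : ℝ) + 5)) := by
    rw [hy]
    exact Nat.floor_le (by positivity)
  refine ⟨?_, ?_, ?_⟩
  · have h3 : (y : ℝ) ≤ L / 15 := by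
      refine hy2.trans ?_
      gcongr
      linarith
    push_cast
    linarith
  · push_cast
    calc 2 / ((A : ℝ) + 5) * L = 8 * (L / (4 * ((A : ℝ) + 5))) := by
          field_simp
          norm_num
      _ ≤ 8 * (y : ℝ) := by gcongr
  · have hpos : (0 : ℝ) < ((PP (8 * y) : ℕ) : ℝ) := by exact_mod_cast PP_pos
    rw [← Real.log_le_iff_le_exp hpos, PP]
    refine (prod_pr_log_le _).trans ?_
    have h5 := log_four_le
    have h6 : (0 : ℝ) < Real.log 4 := Real.log_pos (by norm_num)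
    push_cast
    have h7 : (512 : ℝ) ≤ ε * ((A : ℝ) + 5) := by
      rw [div_le_iff₀ hε] at hA
      nlinarith
    calc Real.log 4 * (8 * (y : ℝ)) ≤ (1387 / 1000) * (8 * (L / (3 * ((A : ℝ) + 5)))) := by
          gcongr
      _ = (8 * 1387 / 3000 / ((A : ℝ) + 5)) * L := by
          field_simp
          norm_num
      _ ≤ (ε / 128) * L := by
          apply mul_le_mul_of_nonneg_right _ hL0.le
          rw [div_le_div_iff₀ (by positivity) (by norm_num)]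
          linarith

/-- all the conditions on the size of `L = log N` -/
lemma ev_main {ε δ : ℝ} (hε : 0 < ε) (hδ : 0 < δ) (A : ℕ) : ∀ᶠ L : ℝ in atTop,
    2 / (ε * δ) ≤ L ∧ Real.log 4 / (ε / 2) ≤ L ∧ 14 * L ^ 3 ≤ Real.exp (1 / 2 * L) ∧
    Real.log (2 / (ε / 8 * ε)) / (1 / 2) ≤ L ∧ 4 / (ε / 8) ≤ Real.log L ∧
    ((A : ℝ) + 5) / (ε ^ 2 / 8) ≤ Real.log (2 / ((A : ℝ) + 5) * L) ∧
    Real.log 2 / (ε ^ 2 / 8) ≤ L ∧ (A : ℝ) + 5 ≤ L := by
  have h3 : ∀ᶠ L : ℝ in atTop, 14 * L ^ 3 ≤ Real.exp (1 / 2 * L) := by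
    have h1 := (isLittleO_pow_exp_pos_mul_atTop 3 (show (0 : ℝ) < 1 / 2 by norm_num)).bound
      (show (0 : ℝ) < 1 / 14 by norm_num)
    filter_upwards [h1, eventually_ge_atTop 0] with L hL hL0
    rw [Real.norm_of_nonneg (by positivity), Real.norm_of_nonneg (Real.exp_pos _).le] at hL
    linarith
  have h6 : ∀ᶠ L : ℝ in atTop,
      ((A : ℝ) + 5) / (ε ^ 2 / 8) ≤ Real.log (2 / ((A : ℝ) + 5) * L) := by
    have h1 : Tendsto (fun L : ℝ => Real.log (2 / ((A : ℝ) + 5) * L)) atTop atTop :=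
      Real.tendsto_log_atTop.comp (tendsto_id.const_mul_atTop (by positivity))
    exact h1.eventually_ge_atTop _
  filter_upwards [eventually_ge_atTop (2 / (ε * δ)), eventually_ge_atTop (Real.log 4 / (ε / 2)),
    h3, eventually_ge_atTop (Real.log (2 / (ε / 8 * ε)) / (1 / 2)),
    Real.tendsto_log_atTop.eventually_ge_atTop (4 / (ε / 8)), h6,
    eventually_ge_atTop (Real.log 2 / (ε ^ 2 / 8)), eventually_ge_atTop ((A : ℝ) + 5)]
    with L g1 g2 g3 g4 g5 g6 g7 g8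
  exact ⟨g1, g2, g3, g4, g5, g6, g7, g8⟩

/-- The properties of one modulus. -/
def Nice (ε t : ℝ) (N m : ℕ) : Prop :=
  N ≤ m ∧ (m : ℝ) ≤ (1 + ε) * N ∧ ∃ 𝒞 : Finset ℕ, (m : ℝ) ^ (1 - ε) ≤ 𝒞.card ∧
    ∀ c ∈ 𝒞, c < m ∧ Nat.Coprime c m ∧ ∃ p : ℕ, p.Prime ∧ p ≡ c [MOD m] ∧
      (∀ q : ℕ, q.Prime → q ≡ c [MOD m] → p ≤ q) ∧
      (1 - ε) * (t * m.totient * Real.log m) ≤ p ∧ (p : ℝ) ≤ (1 + ε) * (t * m.totient * Real.log m)

/-- one modulus -/
lemma nice_of {ε δ t x κ₀ : ℝ} (hε : 0 < ε) (hε1 : ε ≤ 1) (hδ : 0 < δ) {N m Y α A : ℕ} {L : ℝ}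
    (hL : L = Real.log N) (hN : 0 < N) (hL1 : 1 ≤ L)
    (c1 : 2 / (ε * δ) ≤ L) (c2 : Real.log 4 / (ε / 2) ≤ L) (c3 : 14 * L ^ 3 ≤ Real.exp (1 / 2 * L))
    (c6 : ((A : ℝ) + 5) / (ε ^ 2 / 8) ≤ Real.log (2 / ((A : ℝ) + 5) * L))
    (c7 : Real.log 2 / (ε ^ 2 / 8) ≤ L)
    (hAL : (A : ℝ) + 5 ≤ L)
    (hY1 : (Y : ℝ) ≤ L) (hY2 : 2 / ((A : ℝ) + 5) * L ≤ Y)
    (hW0 : 0 ≤ WM N) (hWL : WM N ≤ L ^ 2) (hκ0 : 0 < κ₀) (hκ1 : κ₀ ≤ 1) (ht : ε ≤ t)
    (htW : t * L ≤ κ₀ / 2 * WM N)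
    (hm1 : N ≤ m) (hm2 : (m : ℝ) ≤ (1 + ε) * N)
    (hρ : δ ≤ ∏ l ∈ sp Y m, (1 - (1 : ℝ) / l))
    (hx : x = t * N * (∏ l ∈ sp Y m, (1 - (1 : ℝ) / l)) * L)
    (hcov : ∀ n : ℕ, 1 ≤ n → (n : ℝ) ≤ κ₀ * WM N → ∃ l ∈ pr Y \ sp Y m, n ≡ α [MOD l])
    {B : ℕ} (hB : B = ⌊(N : ℝ) ^ (1 - 3 * (ε / 8 / 16))⌋₊)
    (hocc : B < ((win x (ε / 8)).filter
      (fun p => p % WW Y (sp Y m) = (α * m) % WW Y (sp Y m))).card) : Nice ε t N m := by
  classical
  have hNr : (0 : ℝ) < N := by exact_mod_cast hN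
  have hm0 : 0 < m := by omega
  have hmr : (0 : ℝ) < m := by exact_mod_cast hm0
  have hmNr : (N : ℝ) ≤ m := by exact_mod_cast hm1
  have hL0 : 0 < L := by linarith
  have ht0 : 0 < t := by linarith
  obtain ⟨ρ, hρe⟩ : ∃ ρ, ρ = ∏ l ∈ sp Y m, (1 - (1 : ℝ) / l) := ⟨_, rfl⟩
  rw [← hρe] at hρ hx
  have hρ0 : 0 < ρ := by linarith
  have hρ1 : ρ ≤ 1 := by
    rw [hρe]
    exact Finset.prod_le_one (fun l hl => (one_sub_inv_mem (pr_prime (sp_sub m hl))).1.le)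
      (fun l hl => (one_sub_inv_mem (pr_prime (sp_sub m hl))).2)
  have hx0 : 0 < x := by
    rw [hx]
    positivity
  have hx2N : 2 * (N : ℝ) ≤ x := by
    rw [div_le_iff₀ (by positivity)] at c1
    rw [hx]
    calc 2 * (N : ℝ) ≤ (L * (ε * δ)) * N := by gcongr
      _ ≤ (L * (t * ρ)) * N := by gcongr
      _ = _ := by ring
  have hm2N : (m : ℝ) ≤ 2 * N := by nlinarith
  obtain ⟨T, hT⟩ : ∃ T, T = ⌊κ₀ * WM N⌋₊ := ⟨_, rfl⟩
  have hTr : (T : ℝ) ≤ L ^ 2 := by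
    rw [hT]
    refine (Nat.floor_le (by positivity)).trans ?_
    calc κ₀ * WM N ≤ 1 * L ^ 2 := by gcongr
      _ = _ := one_mul _
  have hy0 : 0 ≤ (1 + ε / 8) * x := by positivity
  have hI : ∀ p ∈ win x (ε / 8), p.Prime ∧ m < p ∧ p / m ≤ T ∧ p / m ≤ T := by
    intro p hp
    obtain ⟨a1, a2, a3⟩ := (mem_win hy0).1 hp
    have h1 : p / m ≤ T := by
      rw [hT]
      apply Nat.le_floor
      refine Nat.cast_div_le.trans ?_
      rw [div_le_iff₀ hmr]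
      calc (p : ℝ) ≤ (1 + ε / 8) * x := a3
        _ ≤ 2 * x := by
            apply mul_le_mul_of_nonneg_right _ hx0.le
            linarith
        _ = 2 * (t * L) * (ρ * N) := by rw [hx]; ring
        _ ≤ 2 * (κ₀ / 2 * WM N) * (1 * m) := by gcongr
        _ = _ := by ring
    refine ⟨a1, ?_, h1, h1⟩
    have : (m : ℝ) < p := by linarith
    exact_mod_cast this
  obtain ⟨𝒞, hmany, h𝒞⟩ := many_classes' (m := m) (Y := Y) (T := T) (α := α) (K := T) (B := B)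
    (W := WW Y (sp Y m)) (Q := pr Y \ sp Y m) (I := win x (ε / 8))
    (fun l hl => ⟨sdiff_prime hl, (mem_pr.1 (Finset.mem_sdiff.1 hl).1).2, dvd_WW hl⟩)
    (fun n hn1 hn2 => hcov n hn1 (by
      have h1 : (n : ℝ) ≤ T := by exact_mod_cast hn2
      refine h1.trans ?_
      rw [hT]
      exact Nat.floor_le (by positivity))) hm0 hI rfl hocc
  refine ⟨hm1, hm2, 𝒞, ?_, ?_⟩
  rotate_left
  · intro c hc
    obtain ⟨b1, b2, p, hp, b3, b4⟩ := h𝒞 c hc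
    obtain ⟨a1, a2, a3⟩ := (mem_win hy0).1 hp
    refine ⟨b1, b2, p, a1, b3, b4, ?_⟩
    -- the sizes
    have hA5 : (0 : ℝ) < (A : ℝ) + 5 := by positivity
    have hY2r : (2 : ℝ) ≤ Y := by
      refine le_trans ?_ hY2
      rw [div_mul_eq_mul_div, le_div_iff₀ hA5]
      linarith
    have hYn : 2 ≤ Y := by exact_mod_cast hY2r
    obtain ⟨u1, u2⟩ := totient_bounds hm0 hYn
    rw [← hρe] at u1 u2
    have hlm1 : L ≤ Real.log m := by
      rw [hL]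
      exact Real.log_le_log hNr hmNr
    have hlm2 : Real.log m ≤ L + Real.log 2 := by
      rw [hL, add_comm, ← Real.log_mul (by norm_num) hNr.ne']
      exact Real.log_le_log hmr hm2N
    have hlog2 : Real.log 2 ≤ ε ^ 2 / 8 * L := by
      rw [div_le_iff₀ (by positivity)] at c7
      linarith
    have hlog21 : Real.log 2 ≤ L := by
      have := Real.log_two_lt_d9
      linarith
    have hratio : Real.log m / (Y * Real.log Y) ≤ ε ^ 2 / 8 := by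
      have h5 : ((A : ℝ) + 5) / (ε ^ 2 / 8) ≤ Real.log Y :=
        c6.trans (Real.log_le_log (by positivity) hY2)
      have h6 : 0 < ((A : ℝ) + 5) / (ε ^ 2 / 8) := by positivity
      rw [div_le_iff₀ (mul_pos (by linarith) (by linarith))]
      calc Real.log m ≤ 2 * L := by linarith
        _ = ε ^ 2 / 8 * ((2 / ((A : ℝ) + 5) * L) * (((A : ℝ) + 5) / (ε ^ 2 / 8))) := by
            field_simp
        _ ≤ ε ^ 2 / 8 * (Y * Real.log Y) := by gcongr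
    apply size_facts (N := N) (m := m) (L := L) (ρ := ρ) hε hε1 ht0 hNr hL0 hρ0
      (by rw [← hx]; exact a2) (by rw [← hx]; exact a3) hmNr hm2 hlm1 (by linarith) _ u1
    refine le_trans ?_ u2
    have : 0 ≤ ρ * (m : ℝ) := by positivity
    gcongr
  · -- the number of classes
    have h1 : (B : ℝ) + 1 ≤ (𝒞.card : ℝ) + (T + 1) * (Y + 1) := by
      exact_mod_cast hmany
    have h2 : (N : ℝ) ^ (1 - 3 * (ε / 8 / 16)) < B + 1 := by
      rw [hB]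
      exact Nat.lt_floor_add_one _
    have h3 : ((T : ℝ) + 1) * (Y + 1) ≤ 7 * L ^ 3 := by
      calc ((T : ℝ) + 1) * (Y + 1) ≤ (L ^ 2 + L ^ 2) * (L + L) := by
            have : 1 ≤ L ^ 2 := one_le_pow₀ hL1
            gcongr
        _ = 4 * L ^ 3 := by ring
        _ ≤ 7 * L ^ 3 := by
            have : 0 < L ^ 3 := by positivity
            linarith
    have hNe : (N : ℝ) = Real.exp L := by rw [hL, Real.exp_log hNr]
    have h4 : 14 * L ^ 3 ≤ (N : ℝ) ^ (1 - 3 * (ε / 8 / 16)) := by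
      refine c3.trans ?_
      rw [Real.rpow_def_of_pos hNr, ← hL]
      apply Real.exp_le_exp.2
      nlinarith
    have h5 : 4 * (N : ℝ) ^ (1 - ε) ≤ (N : ℝ) ^ (1 - 3 * (ε / 8 / 16)) := by
      rw [Real.rpow_def_of_pos hNr, Real.rpow_def_of_pos hNr, ← hL]
      have e1 : (4 : ℝ) = Real.exp (Real.log 4) := (Real.exp_log (by norm_num)).symm
      have h6 : Real.log 4 ≤ ε / 2 * L := by
        rw [div_le_iff₀ (by positivity)] at c2
        linarith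
      calc 4 * Real.exp (L * (1 - ε)) = Real.exp (Real.log 4 + L * (1 - ε)) := by
            rw [Real.exp_add, ← e1]
        _ ≤ _ := by
            apply Real.exp_le_exp.2
            nlinarith
    have h6 : (m : ℝ) ^ (1 - ε) ≤ 2 * (N : ℝ) ^ (1 - ε) := by
      calc (m : ℝ) ^ (1 - ε) ≤ (2 * (N : ℝ)) ^ (1 - ε) :=
            Real.rpow_le_rpow hmr.le hm2N (by linarith)
        _ = 2 ^ (1 - ε) * (N : ℝ) ^ (1 - ε) := Real.mul_rpow (by norm_num) hNr.le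
        _ ≤ 2 ^ (1 : ℝ) * (N : ℝ) ^ (1 - ε) := by
            gcongr
            · norm_num
            · linarith
        _ = _ := by rw [Real.rpow_one]
    linarith

/-- For half of the moduli there are many residues whose least prime has a prescribed size. -/
theorem half_moduli {ε : ℝ} (hε : 0 < ε) (hε1 : ε ≤ 1) : ∃ κ : ℝ, 0 < κ ∧ ∃ N₀ : ℕ, ∀ N : ℕ,
    N₀ ≤ N → ∀ t : ℝ, ε ≤ t → t * Real.log N ≤ κ * WM N →
      ∃ 𝓜 : Finset ℕ, (1 / 2 - ε) * (ε * N) ≤ 𝓜.card ∧ ∀ m ∈ 𝓜, Nice ε t N m := by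
  classical
  obtain ⟨K₀, hK₀⟩ : ∃ K₀ : ℕ, K₀ = ⌈4 / (ε / 8)⌉₊ := ⟨_, rfl⟩
  have hK1 : 4 / (ε / 8) ≤ K₀ := by
    rw [hK₀]
    exact Nat.le_ceil _
  have hK0 : 0 < K₀ := by
    have : (0 : ℝ) < K₀ := lt_of_lt_of_le (by positivity) hK1
    exact_mod_cast this
  obtain ⟨A, hA'⟩ : ∃ A : ℕ, A = ⌈512 / ε⌉₊ := ⟨_, rfl⟩
  have hA : 512 / ε ≤ A := by
    rw [hA']
    exact Nat.le_ceil _
  obtain ⟨δ, hδe⟩ : ∃ δ : ℝ, δ = 1 / 2 * ∏ l ∈ pr K₀, (1 - (1 : ℝ) / l) := ⟨_, rfl⟩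
  have hδ : 0 < δ := by
    rw [hδe]
    have : 0 < ∏ l ∈ pr K₀, (1 - (1 : ℝ) / l) :=
      Finset.prod_pos fun l hl => (one_sub_inv_mem (pr_prime hl)).1
    positivity
  have hδ1 : δ ≤ 1 := by
    rw [hδe]
    have : ∏ l ∈ pr K₀, (1 - (1 : ℝ) / l) ≤ 1 :=
      Finset.prod_le_one (fun l hl => (one_sub_inv_mem (pr_prime hl)).1.le)
        (fun l hl => (one_sub_inv_mem (pr_prime hl)).2)
    linarith
  obtain ⟨x₀, hx₀1, hocc⟩ := occupancy (ε := ε / 8) (η := ε / 8) (by positivity) le_rfl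
    (by linarith)
  obtain ⟨κ₀, hκ0, hκ1, M₀, hcov⟩ := cover_avoid A hδ hδ1
  obtain ⟨M₁, hM₁⟩ := eventually_atTop.1 (tendsto_log_nat.eventually (ev_main hε hδ A))
  refine ⟨κ₀ / 2, by positivity, max (max M₀ M₁) (max ⌈x₀⌉₊ 1), fun N hN t ht htW => ?_⟩
  obtain ⟨h1, h2, h3⟩ := hcov N (((le_max_left _ _).trans (le_max_left _ _)).trans hN)
  obtain ⟨c1, c2, c3, c4, c5, c6, c7, c8⟩ :=
    hM₁ N (((le_max_right _ _).trans (le_max_left _ _)).trans hN)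
  have hNx : x₀ ≤ N :=
    (Nat.le_ceil x₀).trans (by
      exact_mod_cast ((le_max_left _ _).trans (le_max_right _ _)).trans hN)
  have hN1 : 0 < N := ((le_max_right _ _).trans (le_max_right _ _)).trans hN
  clear hcov hM₁ hN
  obtain ⟨hW0, hWL⟩ := WM_bounds h2
  obtain ⟨L, hL⟩ : ∃ L, L = Real.log (N : ℝ) := ⟨_, rfl⟩
  obtain ⟨w, hw⟩ : ∃ w, w = Real.log L := ⟨_, rfl⟩
  obtain ⟨y, hy⟩ : ∃ y, y = yM A N := ⟨_, rfl⟩
  rw [← hL] at h1 h2 h3 c1 c2 c3 c4 c5 c6 c7 c8 htW hWL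
  rw [← hw] at h2 h3 c5
  rw [← hy] at h1 h3
  have hy' : y = ⌊L / (3 * ((A : ℝ) + 5))⌋₊ := by rw [hy, yM, hL]
  have hAr : (0 : ℝ) ≤ A := Nat.cast_nonneg _
  have hL1 : 1 ≤ L := by linarith
  have hL0 : 0 < L := by linarith
  have hNr : (0 : ℝ) < N := by exact_mod_cast hN1
  have hNe : (N : ℝ) = Real.exp L := by rw [hL, Real.exp_log hNr]
  have ht0 : 0 < t := by linarith
  obtain ⟨hY1, hY2, hPP⟩ := param_facts (N := N) hε hA hL0 hy' h1
  obtain ⟨Y, hY⟩ : ∃ Y, Y = 8 * y := ⟨_, rfl⟩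
  rw [← hY] at h3 hY1 hY2 hPP
  -- the residues `α`
  have hex : ∀ S : Finset ℕ, ∃ a : ℕ, S ⊆ pr Y → Gd K₀ w S → (∀ l ∈ pr Y \ S, ¬ l ∣ a) ∧
      ∀ n : ℕ, 1 ≤ n → (n : ℝ) ≤ κ₀ * WM N → ∃ l ∈ pr Y \ S, n ≡ a [MOD l] := by
    intro S
    by_cases hS : S ⊆ pr Y ∧ Gd K₀ w S
    · have hSp : ∀ l ∈ S, l.Prime := fun l hl => pr_prime (hS.1 hl)
      obtain ⟨a, ha1, ha2⟩ := h3 S hSp hS.2.1 (by
        rw [hδe]
        exact good_ratio hSp hS.2)
      exact ⟨a, fun _ _ => ⟨ha1, ha2⟩⟩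
    · exact ⟨0, fun a b => absurd ⟨a, b⟩ hS⟩
  choose α hα using hex
  -- the occupied classes
  obtain ⟨B, hB⟩ : ∃ B : ℕ, B = ⌊(N : ℝ) ^ (1 - 3 * (ε / 8 / 16))⌋₊ := ⟨_, rfl⟩
  obtain ⟨xx, hxx⟩ : ∃ xx : Finset ℕ → ℝ, xx = fun S : Finset ℕ =>
    t * N * (∏ l ∈ S, (1 - (1 : ℝ) / (l : ℝ))) * L := ⟨_, rfl⟩
  obtain ⟨𝓑, h𝓑⟩ : ∃ 𝓑 : Finset ℕ → Finset ℕ, 𝓑 = fun S =>
    (range (WW Y S)).filter (fun r => Nat.Coprime r (WW Y S) ∧
      B < ((win (xx S) (ε / 8)).filter (fun p => p % WW Y S = r)).card) := ⟨_, rfl⟩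
  have hxN : ∀ S ⊆ pr Y, Gd K₀ w S → (N : ℝ) ≤ xx S := by
    intro S hS hg
    have hSp : ∀ l ∈ S, l.Prime := fun l hl => pr_prime (hS hl)
    have hρ := good_ratio hSp hg
    rw [← hδe] at hρ
    rw [div_le_iff₀ (by positivity)] at c1
    rw [hxx]
    calc (N : ℝ) ≤ 2 * N := by linarith
      _ ≤ (L * (ε * δ)) * N := by gcongr
      _ ≤ (L * (t * ∏ l ∈ S, (1 - (1 : ℝ) / l))) * N := by gcongr
      _ = _ := by ring
  have h𝓑c : ∀ S ⊆ pr Y, Gd K₀ w S →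
      (1 / 2 - ε / 8) * ((WW Y S).totient : ℝ) ≤ (𝓑 S).card := by
    intro S hS hg
    have hx := hxN S hS hg
    rw [h𝓑]
    apply hocc (xx S) (hNx.trans hx) (WW Y S) WW_pos _ B
    · rw [hB]
      refine (Nat.floor_le (by positivity)).trans ?_
      apply Real.rpow_le_rpow hNr.le hx
      nlinarith
    · have h4 : WW Y S ≤ PP Y := by
        apply Nat.le_of_dvd PP_pos
        exact ⟨DD S, by rw [mul_comm, DD_mul_WW hS]⟩
      have h5 : ((WW Y S : ℕ) : ℝ) ≤ PP Y := by exact_mod_cast h4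
      refine h5.trans (hPP.trans ?_)
      calc Real.exp (ε / 128 * L) = (N : ℝ) ^ (ε / 8 / 16) := by
            rw [Real.rpow_def_of_pos hNr, ← hL]
            congr 1
            ring
        _ ≤ _ := Real.rpow_le_rpow hNr.le hx (by positivity)
  -- few bad residues
  have hbad := bad_le (Y := Y) hK0 (w := w) (by linarith)
  have hβ : (1 + Real.log Y) / w ^ 2 + 2 / K₀ ≤ ε / 8 := by
    have hw0 : 0 < w := by linarith
    have hYlog : Real.log Y ≤ w := by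
      rcases Nat.eq_zero_or_pos Y with h | h
      · rw [h, Nat.cast_zero, Real.log_zero]
        linarith
      · rw [hw]
        exact Real.log_le_log (by exact_mod_cast h) hY1
    have g1 : (1 + Real.log Y) / w ^ 2 ≤ ε / 8 / 2 := by
      rw [div_le_iff₀ (by positivity)]
      rw [div_le_iff₀ (by positivity)] at c5
      nlinarith
    have g2 : 2 / (K₀ : ℝ) ≤ ε / 8 / 2 := by
      have hK0r : (0 : ℝ) < K₀ := by exact_mod_cast hK0
      rw [div_le_iff₀ hK0r]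
      rw [div_le_iff₀ (by positivity)] at hK1
      linarith
    linarith
  have hPr : (0 : ℝ) < PP Y := by exact_mod_cast (PP_pos : 0 < PP Y)
  have hbad' : (((range (PP Y)).filter (fun r => ¬ Gd K₀ w (sp Y r))).card : ℝ) ≤
      ε / 8 * PP Y := hbad.trans (by gcongr)
  -- the sizes
  have hsmall : Real.exp (ε / 128 * L) ≤ (ε / 8 * ε) / 2 * N := by
    rw [hNe]
    have e1 : (ε / 8 * ε) / 2 * Real.exp L = Real.exp (L - Real.log (2 / (ε / 8 * ε))) := by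
      rw [Real.exp_sub, Real.exp_log (by positivity)]
      field_simp
    rw [e1]
    apply Real.exp_le_exp.2
    rw [div_le_iff₀ (by positivity)] at c4
    nlinarith
  have hone : (1 : ℝ) ≤ (ε / 8 * ε) / 2 * N := by
    refine le_trans ?_ hsmall
    apply Real.one_le_exp
    positivity
  have hPsmall : (PP Y : ℝ) ≤ (ε / 8 * ε) / 2 * N := hPP.trans hsmall
  have hUN : ε * N - 1 ≤ (⌊(1 + ε) * (N : ℝ)⌋₊ : ℝ) - N := by
    have := Nat.lt_floor_add_one ((1 + ε) * (N : ℝ))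
    linarith
  have hcount := count_main (Y := Y) (N := N) (U := ⌊(1 + ε) * (N : ℝ)⌋₊) (Gd K₀ w) α 𝓑
    (θ := 1 / 2 - ε / 8) (β := ε / 8) (by linarith)
    (fun S hS hg => (hα S hS hg).1)
    (fun S hS hg s hs => by
      rw [h𝓑, mem_filter, mem_range] at hs
      exact ⟨hs.1, hs.2.1⟩) h𝓑c hbad' (by
      have : ε * N / 8 ≤ ε * N := by
        have : 0 < ε * N := by positivity
        linarith
      nlinarith)
  refine ⟨_, le_trans ?_ hcount, ?_⟩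
  · have hX : (1 - ε / 8) * (ε * N) ≤ ((⌊(1 + ε) * (N : ℝ)⌋₊ : ℝ) - N) - PP Y := by
      nlinarith
    have hεN : 0 < ε * N := by positivity
    calc (1 / 2 - ε) * (ε * N) ≤
          ((1 / 2 - ε / 8) * (1 - ε / 8) * (1 - ε / 8)) * (ε * N) := by
          apply mul_le_mul_of_nonneg_right _ hεN.le
          nlinarith
      _ = (1 / 2 - ε / 8) * (1 - ε / 8) * ((1 - ε / 8) * (ε * N)) := by ring
      _ ≤ _ := by
          apply mul_le_mul_of_nonneg_left hX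
          apply mul_nonneg <;> linarith
  · intro m hm
    rw [mem_filter, mem_Ioc] at hm
    obtain ⟨⟨a1, a2⟩, a3, a4⟩ := hm
    have hS := sp_sub (Y := Y) m
    obtain ⟨b1, b2⟩ := hα (sp Y m) hS a3
    have hm2 : (m : ℝ) ≤ (1 + ε) * N := by
      have : (m : ℝ) ≤ (⌊(1 + ε) * (N : ℝ)⌋₊ : ℝ) := by exact_mod_cast a2
      exact this.trans (Nat.floor_le (by positivity))
    have hρ := good_ratio (fun l hl => pr_prime (hS hl)) a3
    rw [← hδe] at hρ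
    rw [h𝓑, mem_filter] at a4
    exact nice_of hε hε1 hδ hL hN1 hL1 c1 c2 c3 c6 c7 c8 hY1 hY2 hW0 hWL hκ0 hκ1 ht htW a1.le
      hm2 hρ (by rw [hxx]) b2 hB a4.2.2

end

end Pool.Agent.Lib_helper72.HM
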